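import Mathlib

/-!
Abstract interface for the surreal numbers (project SI, problem MP_c618e1_lc).
`SurrealLike N` collects the properties of the ordered group of surreal numbers with its
simplicity relation which are used in the abstract part of the argument.
-/

universe u

namespace R785.SI

/-- The properties of the surreal numbers used in the abstract argument. -/
structure SurrealLike (N : Type (u+1)) [AddCommGroup N] [LinearOrder N]
    [IsOrderedAddMonoid N] where
  /-- `sle x y`: `x` is an initial segment of `y` (`x` is simpler than or equal to `y`). -/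
  sle : N → N → Prop
  /-- the length of the sign expansion -/
  len : N → Ordinal.{u}
  refl : ∀ x, sle x x
  trans : ∀ {x y z}, sle x y → sle y z → sle x z
  antisymm : ∀ {x y}, sle x y → sle y x → x = y
  len_lt : ∀ {x y}, sle x y → x ≠ y → len x < len y
  chain : ∀ {a b x}, sle a x → sle b x → sle a b ∨ sle b a
  meet : ∀ {x y}, x < y → ¬ sle x y → ¬ sle y x → ∃ z, sle z x ∧ sle z y ∧ x < z ∧ z < y
  between_left : ∀ {v l g}, sle v g → v < l → l < g → sle v l
  between_right : ∀ {v l g}, sle v g → g < l → l < v → sle v l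
  small : ∀ x, Small.{u} {v | sle v x}
  cut : ∀ (L R : Set N), Small.{u} L → Small.{u} R → (∀ l ∈ L, ∀ r ∈ R, l < r) →
    ∃ z, (∀ l ∈ L, l < z) ∧ (∀ r ∈ R, z < r) ∧
      ∀ w, (∀ l ∈ L, l < w) → (∀ r ∈ R, w < r) → sle z w
  add_simplest : ∀ x y w,
    (∀ x', sle x' x → (x' < x → x' + y < w) ∧ (x < x' → w < x' + y)) →
    (∀ y', sle y' y → (y' < y → x + y' < w) ∧ (y < y' → w < x + y')) → sle (x + y) w
  neg : ∀ {x y}, sle x y → sle (-x) (-y)

section

variable {N : Type (u+1)} [AddCommGroup N] [LinearOrder N] [IsOrderedAddMonoid N]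

/-- `G` is closed under initial segments. -/
def SurrealLike.Initial (A : SurrealLike N) (G : AddSubgroup N) : Prop :=
  ∀ x ∈ G, ∀ v, A.sle v x → v ∈ G

/-- `ε` is the least positive element of `G`. -/
def IsLeastPos (G : AddSubgroup N) (ε : N) : Prop :=
  ε ∈ G ∧ 0 < ε ∧ ∀ g ∈ G, 0 < g → ε ≤ g

/-- (H1) two elements of `S`, none an initial segment of the other, are separated by a
common initial segment in `S`. -/
def SurrealLike.H1 (A : SurrealLike N) (S : AddSubgroup N) : Prop :=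
  ∀ x ∈ S, ∀ y ∈ S, x < y → ¬ A.sle x y → ¬ A.sle y x →
    ∃ z ∈ S, A.sle z x ∧ A.sle z y ∧ x < z ∧ z < y

/-- (H2) simplicity of sums, tested with options in `S` only. -/
def SurrealLike.H2 (A : SurrealLike N) (S : AddSubgroup N) : Prop :=
  ∀ x ∈ S, ∀ y ∈ S, ∀ w ∈ S,
    (∀ x' ∈ S, A.sle x' x → (x' < x → x' + y < w) ∧ (x < x' → w < x' + y)) →
    (∀ y' ∈ S, A.sle y' y → (y' < y → x + y' < w) ∧ (y < y' → w < x + y')) →
    A.sle (x + y) w

/-- Statement of part A. -/
def StmtA (A : SurrealLike N) : Prop :=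
  ∀ (G : AddSubgroup N) (ε : N), A.Initial G → IsLeastPos G ε →
    ∃ S : AddSubgroup N, S ≤ G ∧ (∀ g ∈ G, ∃ s ∈ S, ∃ k : ℤ, g = s + k • ε) ∧
      (∀ s ∈ S, 0 < s → ∀ n : ℕ, n • ε < s) ∧ A.H1 S ∧ A.H2 S

/-- Statement of part B. -/
def StmtB (A : SurrealLike N) : Prop :=
  ∀ (S : AddSubgroup N), A.H1 S → A.H2 S →
  ∀ (one : N), 0 < one → (∀ w, 0 < w → A.sle one w) →
    ∃ Ψ : S →+ N, (∀ x y : S, x < y → ∀ n : ℕ, Ψ x + n • one < Ψ y) ∧
      (∀ (x : S) (k : ℤ) (v : N), A.sle v (Ψ x + k • one) →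
        ∃ (y : S) (m : ℤ), v = Ψ y + m • one) ∧
      (∀ (x : S) (k : ℤ) (w : N), Ψ x + k • one - one < w → w < Ψ x + k • one + one →
        A.sle (Ψ x + k • one) w)

/-- Statement of the abstract main theorem (part C, from parts A and B). -/
def StmtC (A : SurrealLike N) : Prop :=
  ∀ (one : N), 0 < one → (∀ w, 0 < w → A.sle one w) →
  ∀ (G : AddSubgroup N), A.Initial G → (∃ ε, IsLeastPos G ε) →
    ∃ H : AddSubgroup N, A.Initial H ∧
      (∀ x ∈ H, ∀ w, x - one < w → w < x + one → A.sle x w) ∧ Nonempty (G ≃+o H)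

end

end R785.SI
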