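import Pool.Agent.R785.SI.Defs

/-!
Project SI (MP_c618e1_lc), part A: the simplest coset representatives.
-/

universe u

namespace R785.SI

variable {N : Type (u+1)} [AddCommGroup N] [LinearOrder N] [IsOrderedAddMonoid N]

namespace PA

theorem arch {G : AddSubgroup N} {ε : N} (hε : IsLeastPos G ε) {x g : N} (hx : x ∈ G)
    (hg : g ∈ G) {m n : ℤ} (h1 : x + m • ε ≤ g) (h2 : g ≤ x + n • ε) :
    ∃ k : ℤ, g = x + k • ε := by
  obtain ⟨hεG, hε0, hmin⟩ := hε
  have hb : ∃ b : ℤ, ∀ z : ℤ, x + z • ε ≤ g → z ≤ b := by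
    refine ⟨n, fun z hz => ?_⟩
    have h3 := (add_le_add_iff_left x).1 (hz.trans h2)
    exact (zsmul_le_zsmul_iff_left hε0).1 h3
  obtain ⟨k, hk, hkmax⟩ := Int.exists_greatest_of_bdd hb ⟨m, h1⟩
  refine ⟨k, ?_⟩
  by_contra hne
  have hlt : x + k • ε < g := lt_of_le_of_ne hk (Ne.symm hne)
  have h3 : 0 < g - (x + k • ε) := sub_pos.2 hlt
  have h4 : g - (x + k • ε) ∈ G := G.sub_mem hg (G.add_mem hx (G.zsmul_mem hεG k))
  have h5 := hmin _ h4 h3
  have h6 : x + (k + 1) • ε ≤ g := by
    rw [add_zsmul, one_zsmul, ← add_assoc]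
    have := add_le_of_le_sub_right h5
    rwa [add_comm] at this
  have := hkmax _ h6
  omega

theorem far {G : AddSubgroup N} {ε : N} (hε : IsLeastPos G ε) {x y : N} (hx : x ∈ G)
    (hy : y ∈ G) (hxy : x < y) (hn : ¬ ∃ k : ℤ, y = x + k • ε) (k : ℤ) : x + k • ε < y := by
  by_contra h
  rw [not_lt] at h
  apply hn
  refine arch hε hx hy (m := 0) ?_ h
  rw [zero_zsmul, add_zero]
  exact hxy.le

theorem sle_zero (A : SurrealLike N) (w : N) : A.sle 0 w := by
  obtain ⟨z, -, -, hz⟩ := A.cut ∅ ∅ inferInstance inferInstance (by simp)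
  have hz1 : ∀ w, A.sle z w := fun w => hz w (by simp) (by simp)
  have hz2 : ∀ w, A.sle (-z) w := fun w => by
    have := A.neg (hz1 (-w))
    rwa [neg_neg] at this
  have h0 : z = -z := A.antisymm (hz1 _) (hz2 _)
  have h1 : z = 0 := self_eq_neg.1 h0
  rw [← h1]
  exact hz1 w

/-- simplest representative of a coset -/
theorem rep (A : SurrealLike N) {G : AddSubgroup N} {ε : N} (hG : A.Initial G)
    (hε : IsLeastPos G ε) {x : N} (hx : x ∈ G) :
    ∃ k : ℤ, ∀ j : ℤ, A.sle (x + k • ε) (x + j • ε) := by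
  obtain ⟨a, ⟨k, rfl⟩, hmin⟩ := (wellFounded_lt (α := Ordinal.{u})).has_min
    (Set.range (fun k : ℤ => A.len (x + k • ε))) ⟨_, 0, rfl⟩
  have hmin' : ∀ j : ℤ, ¬ A.len (x + j • ε) < A.len (x + k • ε) := fun j => hmin _ ⟨j, rfl⟩
  have hmem : ∀ j : ℤ, x + j • ε ∈ G := fun j => G.add_mem hx (G.zsmul_mem hε.1 j)
  refine ⟨k, fun j => ?_⟩
  by_contra h1
  have h2 : ¬ A.sle (x + j • ε) (x + k • ε) := by
    intro h2
    by_cases h3 : x + j • ε = x + k • ε
    · exact h1 (h3 ▸ A.refl _)
    · exact hmin' j (A.len_lt h2 h3)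
  have key : ∀ z, A.sle z (x + k • ε) → z ≠ x + k • ε →
      (∃ m n : ℤ, x + m • ε ≤ z ∧ z ≤ x + n • ε) → False := by
    intro z hz hne ⟨m, n, hm, hn⟩
    obtain ⟨i, rfl⟩ := arch hε hx (hG _ (hmem k) z hz) hm hn
    exact hmin' i (A.len_lt hz hne)
  rcases lt_trichotomy (x + k • ε) (x + j • ε) with h | h | h
  · obtain ⟨z, hz1, -, hz3, hz4⟩ := A.meet h h1 h2
    exact key z hz1 hz3.ne' ⟨k, j, hz3.le, hz4.le⟩
  · exact h1 (h ▸ A.refl _)
  · obtain ⟨z, -, hz2, hz3, hz4⟩ := A.meet h h2 h1
    exact key z hz2 hz4.ne ⟨j, k, hz3.le, hz4.le⟩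

end PA

open PA in
theorem partA (A : SurrealLike N) : StmtA A := by
  intro G ε hG hε
  have hεG := hε.1
  -- the predicate
  have hP : ∃ P : N → Prop, ∀ x, P x ↔ (x ∈ G ∧ ∀ k : ℤ, A.sle x (x + k • ε)) :=
    ⟨_, fun _ => Iff.rfl⟩
  obtain ⟨P, hP⟩ := hP
  have hnot : ∀ x x', P x → A.sle x' x → x' ≠ x → ¬ ∃ k : ℤ, x' = x + k • ε := by
    rintro x x' hx hx' hne ⟨k, rfl⟩
    exact hne (A.antisymm hx' (((hP x).1 hx).2 k))
  have L1 : ∀ x x', P x → A.sle x' x → x' < x → ∀ k : ℤ, x' < x + k • ε := by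
    intro x x' hx hx' hlt k
    have hxG := ((hP x).1 hx).1
    have h := far hε (hG x hxG x' hx') hxG hlt (by
      rintro ⟨j, hj⟩
      refine hnot x x' hx hx' hlt.ne ⟨-j, ?_⟩
      rw [hj, neg_zsmul]; abel) (-k)
    rw [neg_zsmul] at h
    have h2 := add_lt_add_left h (k • ε)
    have e1 : k • ε + (x' + -(k • ε)) = x' := by abel
    have e2 : k • ε + x = x + k • ε := by abel
    first
      | rwa [e1, e2] at h2
      | (have e3 : x' + -(k • ε) + k • ε = x' := by abel
         rwa [e3] at h2)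
  have L2 : ∀ x x', P x → A.sle x' x → x < x' → ∀ k : ℤ, x + k • ε < x' := by
    intro x x' hx hx' hlt k
    have hxG := ((hP x).1 hx).1
    exact far hε hxG (hG x hxG x' hx') hlt (hnot x x' hx hx' hlt.ne') k
  have hrep : ∀ x ∈ G, ∃ v, P v ∧ A.sle v x ∧ ∃ k : ℤ, x = v + k • ε := by
    intro x hx
    obtain ⟨k, hk⟩ := rep A hG hε hx
    refine ⟨x + k • ε, (hP _).2 ⟨G.add_mem hx (G.zsmul_mem hεG k), fun i => ?_⟩, ?_, -k, ?_⟩
    · have := hk (k + i)
      rwa [add_zsmul, ← add_assoc] at this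
    · have := hk 0
      rwa [zero_zsmul, add_zero] at this
    · rw [neg_zsmul]; abel
  have hz : ∀ w, P w → (∃ k : ℤ, w = k • ε) → w = 0 := by
    rintro w hw ⟨k, hk⟩
    have h1 := ((hP w).1 hw).2 (-k)
    have e : w + (-k) • ε = 0 := by rw [hk, neg_zsmul]; abel
    rw [e] at h1
    exact A.antisymm h1 (sle_zero A w)
  have hadd : ∀ x y, P x → P y → P (x + y) := by
    intro x y hx hy
    refine (hP _).2 ⟨G.add_mem ((hP x).1 hx).1 ((hP y).1 hy).1, fun k => ?_⟩
    apply A.add_simplest
    · intro x' hx'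
      refine ⟨fun h => ?_, fun h => ?_⟩
      · have := add_lt_add_left (L1 x x' hx hx' h k) y
        first
          | (have e : y + (x + k • ε) = x + y + k • ε := by abel
             rw [e, add_comm y x'] at this; exact this)
          | (have e : (x + k • ε) + y = x + y + k • ε := by abel
             rw [e] at this; exact this)
      · have := add_lt_add_left (L2 x x' hx hx' h k) y
        first
          | (have e : y + (x + k • ε) = x + y + k • ε := by abel
             rw [e, add_comm y x'] at this; exact this)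
          | (have e : (x + k • ε) + y = x + y + k • ε := by abel
             rw [e] at this; exact this)
    · intro y' hy'
      refine ⟨fun h => ?_, fun h => ?_⟩
      · have := add_lt_add_left (L1 y y' hy hy' h k) x
        first
          | (have e : x + (y + k • ε) = x + y + k • ε := by abel
             rw [e] at this; exact this)
          | (have e : (y + k • ε) + x = x + y + k • ε := by abel
             rw [e, add_comm y' x] at this; exact this)
      · have := add_lt_add_left (L2 y y' hy hy' h k) x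
        first
          | (have e : x + (y + k • ε) = x + y + k • ε := by abel
             rw [e] at this; exact this)
          | (have e : (y + k • ε) + x = x + y + k • ε := by abel
             rw [e, add_comm y' x] at this; exact this)
  have hneg : ∀ x, P x → P (-x) := by
    intro x hx
    obtain ⟨t, ht, -, k, hk⟩ := hrep (-x) (G.neg_mem ((hP x).1 hx).1)
    have h1 : x + t = (-k) • ε := by
      have : t = -x - k • ε := by rw [hk]; abel
      rw [this, neg_zsmul]; abel
    have h2 := hz _ (hadd x t hx ht) ⟨-k, h1⟩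
    have h3 : -x = t := by rw [← sub_eq_zero, ← h2]; rw [show -x - t = -(x + t) by abel, h2, neg_zero]
    rw [h3]
    exact ht
  have hzero : P 0 := (hP 0).2 ⟨G.zero_mem, fun k => sle_zero A _⟩
  have hpos : ∀ s, P s → 0 < s → ∀ k : ℤ, k • ε < s := by
    intro s hs hs0 k
    have := far hε G.zero_mem ((hP s).1 hs).1 hs0 (by
      rintro ⟨j, hj⟩
      exact hs0.ne' (hz s hs ⟨j, by rw [hj, zero_add]⟩)) k
    rwa [zero_add] at this
  let S : AddSubgroup N :=
    { carrier := {x | P x}
      add_mem' := fun {a b} ha hb => hadd a b ha hb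
      zero_mem' := hzero
      neg_mem' := fun {a} ha => hneg a ha }
  have hmS : ∀ x, x ∈ S ↔ P x := fun x => Iff.rfl
  refine ⟨S, fun x hx => ((hP x).1 hx).1, ?_, ?_, ?_, ?_⟩
  · intro g hg
    obtain ⟨v, hv, -, k, hk⟩ := hrep g hg
    exact ⟨v, hv, k, hk⟩
  · intro s hs hs0 n
    have := hpos s hs hs0 n
    rwa [natCast_zsmul] at this
  · -- H1
    intro x hx y hy hxy h1 h2
    obtain ⟨z0, hz1, hz2, hz3, hz4⟩ := A.meet hxy h1 h2
    obtain ⟨z, hzP, hzz, k, hk⟩ := hrep z0 (hG x ((hP x).1 hx).1 z0 hz1)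
    refine ⟨z, hzP, A.trans hzz hz1, A.trans hzz hz2, ?_, ?_⟩
    · have h3 := L2 x z0 hx hz1 hz3 k
      rw [hk] at h3
      exact lt_of_add_lt_add_right h3
    · have h3 := L1 y z0 hy hz2 hz4 k
      rw [hk] at h3
      exact lt_of_add_lt_add_right h3
  · -- H2
    intro x hx y hy w hw hX hY
    apply A.add_simplest
    · intro x' hx'
      obtain ⟨v, hv, hvx, k, hk⟩ := hrep x' (hG x ((hP x).1 hx).1 x' hx')
      refine ⟨fun h => ?_, fun h => ?_⟩
      · have h1 := L1 x x' hx hx' h k
        rw [hk] at h1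
        have h2 : v < x := lt_of_add_lt_add_right h1
        have h3 := (hX v hv (A.trans hvx hx')).1 h2
        have h4 : P (w - (v + y)) := by
          rw [sub_eq_add_neg]; exact hadd _ _ hw (hneg _ (hadd _ _ hv hy))
        have h5 := hpos _ h4 (sub_pos.2 h3) k
        have h6 := add_lt_of_lt_sub_right h5
        rw [hk, show v + k • ε + y = k • ε + (v + y) by abel]
        exact h6
      · have h1 := L2 x x' hx hx' h k
        rw [hk] at h1
        have h2 : x < v := lt_of_add_lt_add_right h1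
        have h3 := (hX v hv (A.trans hvx hx')).2 h2
        have h4 : P ((v + y) - w) := by
          rw [sub_eq_add_neg]; exact hadd _ _ (hadd _ _ hv hy) (hneg _ hw)
        have h5 := hpos _ h4 (sub_pos.2 h3) (-k)
        have h6 := add_lt_of_lt_sub_right h5
        rw [neg_zsmul] at h6
        rw [hk, show v + k • ε + y = (v + y) + k • ε by abel]
        have h7 := lt_add_of_neg_add_lt_left h6
        rwa [add_comm] at h7
    · intro y' hy'
      obtain ⟨v, hv, hvy, k, hk⟩ := hrep y' (hG y ((hP y).1 hy).1 y' hy')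
      refine ⟨fun h => ?_, fun h => ?_⟩
      · have h1 := L1 y y' hy hy' h k
        rw [hk] at h1
        have h2 : v < y := lt_of_add_lt_add_right h1
        have h3 := (hY v hv (A.trans hvy hy')).1 h2
        have h4 : P (w - (x + v)) := by
          rw [sub_eq_add_neg]; exact hadd _ _ hw (hneg _ (hadd _ _ hx hv))
        have h5 := hpos _ h4 (sub_pos.2 h3) k
        have h6 := add_lt_of_lt_sub_right h5
        rw [hk, show x + (v + k • ε) = k • ε + (x + v) by abel]
        exact h6
      · have h1 := L2 y y' hy hy' h k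
        rw [hk] at h1
        have h2 : y < v := lt_of_add_lt_add_right h1
        have h3 := (hY v hv (A.trans hvy hy')).2 h2
        have h4 : P ((x + v) - w) := by
          rw [sub_eq_add_neg]; exact hadd _ _ (hadd _ _ hx hv) (hneg _ hw)
        have h5 := hpos _ h4 (sub_pos.2 h3) (-k)
        have h6 := add_lt_of_lt_sub_right h5
        rw [neg_zsmul] at h6
        rw [hk, show x + (v + k • ε) = (x + v) + k • ε by abel]
        have h7 := lt_add_of_neg_add_lt_left h6
        rwa [add_comm] at h7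

end R785.SI
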