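import Pool.Agent.R785.SI.Defs

/-!
Project SI, part B: the embedding `Ψ`.
-/

universe u

namespace R785.SI

namespace PB

section

variable {N : Type (u+1)} [AddCommGroup N] [LinearOrder N] [IsOrderedAddMonoid N]

/-- `x` is the simplest element between `L` and `R`. -/
structure Simp (A : SurrealLike N) (x : N) (L R : Set N) : Prop where
  left : ∀ l ∈ L, l < x
  right : ∀ r ∈ R, x < r
  simplest : ∀ w, (∀ l ∈ L, l < w) → (∀ r ∈ R, w < r) → A.sle x w

variable {A : SurrealLike N}

theorem Simp.unique {x y : N} {L R : Set N} (hx : Simp A x L R) (hy : Simp A y L R) : x = y :=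
  A.antisymm (hx.simplest y hy.left hy.right) (hy.simplest x hx.left hx.right)

theorem Simp.exists_left {x : N} {L R : Set N} (hx : Simp A x L R) {v : N} (hv : A.sle v x)
    (hlt : v < x) : ∃ l ∈ L, v ≤ l := by
  by_contra hcon
  push Not at hcon
  have := hx.simplest v hcon (fun r hr => hlt.trans (hx.right r hr))
  exact absurd (A.antisymm hv this) hlt.ne

theorem Simp.exists_right {x : N} {L R : Set N} (hx : Simp A x L R) {v : N} (hv : A.sle v x)
    (hlt : x < v) : ∃ r ∈ R, r ≤ v := by
  by_contra hcon
  push Not at hcon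
  have := hx.simplest v (fun l hl => (hx.left l hl).trans hlt) hcon
  exact absurd (A.antisymm hv this) hlt.ne'

theorem Simp.add {x y : N} {L R L' R' : Set N} (hx : Simp A x L R) (hy : Simp A y L' R') :
    Simp A (x + y) ((fun l => l + y) '' L ∪ (fun l => x + l) '' L')
      ((fun r => r + y) '' R ∪ (fun r => x + r) '' R') where
  left := by
    rintro _ (⟨l, hl, rfl⟩ | ⟨l, hl, rfl⟩)
    · have := hx.left l hl
      simpa using this
    · have := hy.left l hl
      simpa using this
  right := by
    rintro _ (⟨l, hl, rfl⟩ | ⟨l, hl, rfl⟩)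
    · have := hx.right l hl
      simpa using this
    · have := hy.right l hl
      simpa using this
  simplest := by
    intro w hw1 hw2
    apply A.add_simplest
    · intro x' hx'
      constructor
      · intro hlt
        obtain ⟨l, hl, hle⟩ := hx.exists_left hx' hlt
        refine lt_of_le_of_lt ?_ (hw1 _ (Or.inl ⟨l, hl, rfl⟩))
        simpa using hle
      · intro hlt
        obtain ⟨l, hl, hle⟩ := hx.exists_right hx' hlt
        refine lt_of_lt_of_le (hw2 _ (Or.inl ⟨l, hl, rfl⟩)) ?_
        simpa using hle
    · intro x' hx'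
      constructor
      · intro hlt
        obtain ⟨l, hl, hle⟩ := hy.exists_left hx' hlt
        refine lt_of_le_of_lt ?_ (hw1 _ (Or.inr ⟨l, hl, rfl⟩))
        simpa using hle
      · intro hlt
        obtain ⟨l, hl, hle⟩ := hy.exists_right hx' hlt
        refine lt_of_lt_of_le (hw2 _ (Or.inr ⟨l, hl, rfl⟩)) ?_
        simpa using hle

/-- left options of `Ψ x` -/
def LL (A : SurrealLike N) (S : AddSubgroup N) (one : N) (Ψ : S → N) (x : S) : Set N :=
  {z | ∃ (x' : S) (n : ℕ), A.sle (x' : N) x ∧ (x' : N) < x ∧ z = Ψ x' + n • one}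

/-- right options of `Ψ x` -/
def RR (A : SurrealLike N) (S : AddSubgroup N) (one : N) (Ψ : S → N) (x : S) : Set N :=
  {z | ∃ (x' : S) (n : ℕ), A.sle (x' : N) x ∧ (x : N) < x' ∧ z = Ψ x' - n • one}

theorem small_sub (S : AddSubgroup N) (x : S) : Small.{u} {v : S // A.sle (v : N) x} := by
  haveI := A.small (x : N)
  refine small_of_injective (β := {v : N | A.sle v x})
    (f := fun v => ⟨(v.1 : N), v.2⟩) ?_
  intro a b hab
  apply Subtype.ext
  apply Subtype.ext
  exact congrArg (fun z : {v : N | A.sle v x} => (z : N)) hab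

theorem small_LL (S : AddSubgroup N) (one : N) (Ψ : S → N) (x : S) :
    Small.{u} (LL A S one Ψ x) := by
  haveI := small_sub (A := A) S x
  have h : LL A S one Ψ x ⊆
      Set.range (fun p : {v : S // A.sle (v : N) x} × ℕ => Ψ p.1.1 + p.2 • one) := by
    rintro z ⟨x', n, h1, -, rfl⟩
    exact ⟨(⟨x', h1⟩, n), rfl⟩
  exact small_subset h

theorem small_RR (S : AddSubgroup N) (one : N) (Ψ : S → N) (x : S) :
    Small.{u} (RR A S one Ψ x) := by
  haveI := small_sub (A := A) S x
  have h : RR A S one Ψ x ⊆
      Set.range (fun p : {v : S // A.sle (v : N) x} × ℕ => Ψ p.1.1 - p.2 • one) := by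
    rintro z ⟨x', n, h1, -, rfl⟩
    exact ⟨(⟨x', h1⟩, n), rfl⟩
  exact small_subset h

theorem exists_Psi (A : SurrealLike N) (S : AddSubgroup N) (one : N) : ∃ Ψ : S → N, ∀ x : S,
    (∀ l ∈ LL A S one Ψ x, ∀ r ∈ RR A S one Ψ x, l < r) →
      Simp A (Ψ x) (LL A S one Ψ x) (RR A S one Ψ x) := by
  have wf : WellFounded (fun x y : S => A.len (x : N) < A.len (y : N)) :=
    InvImage.wf (fun x : S => A.len (x : N)) (wellFounded_lt)
  let F : ∀ x : S, (∀ y : S, A.len (y : N) < A.len (x : N) → N) → N := fun x rec =>
    Classical.epsilon (fun z => Simp A z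
      {z | ∃ (x' : S) (h : A.len (x' : N) < A.len (x : N)) (n : ℕ),
        A.sle (x' : N) x ∧ (x' : N) < x ∧ z = rec x' h + n • one}
      {z | ∃ (x' : S) (h : A.len (x' : N) < A.len (x : N)) (n : ℕ),
        A.sle (x' : N) x ∧ (x : N) < x' ∧ z = rec x' h - n • one})
  let Ψ : S → N := wf.fix F
  refine ⟨Ψ, fun x hx => ?_⟩
  have h1 : Ψ x = Classical.epsilon (fun z => Simp A z (LL A S one Ψ x) (RR A S one Ψ x)) := by
    have h2 : Ψ x = F x (fun y _ => Ψ y) := wf.fix_eq F x
    rw [h2]
    have e1 : {z | ∃ (x' : S) (_ : A.len (x' : N) < A.len (x : N)) (n : ℕ),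
        A.sle (x' : N) x ∧ (x' : N) < x ∧ z = Ψ x' + n • one} = LL A S one Ψ x := by
      ext z
      constructor
      · rintro ⟨x', h, n, a, b, c⟩
        exact ⟨x', n, a, b, c⟩
      · rintro ⟨x', n, a, b, c⟩
        exact ⟨x', A.len_lt a b.ne, n, a, b, c⟩
    have e2 : {z | ∃ (x' : S) (_ : A.len (x' : N) < A.len (x : N)) (n : ℕ),
        A.sle (x' : N) x ∧ (x : N) < x' ∧ z = Ψ x' - n • one} = RR A S one Ψ x := by
      ext z
      constructor
      · rintro ⟨x', h, n, a, b, c⟩
        exact ⟨x', n, a, b, c⟩
      · rintro ⟨x', n, a, b, c⟩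
        exact ⟨x', A.len_lt a b.ne', n, a, b, c⟩
    simp only [F]
    rw [e1, e2]
  rw [h1]
  apply Classical.epsilon_spec (p := fun z => Simp A z (LL A S one Ψ x) (RR A S one Ψ x))
  obtain ⟨z, a, b, c⟩ := A.cut _ _ (small_LL S one Ψ x) (small_RR S one Ψ x) hx
  exact ⟨z, a, b, c⟩

section main

variable {S : AddSubgroup N} {one : N} {Ψ : S → N}

/-- the interval condition holds everywhere -/
theorem cond (hΨ : ∀ x : S, (∀ l ∈ LL A S one Ψ x, ∀ r ∈ RR A S one Ψ x, l < r) →
      Simp A (Ψ x) (LL A S one Ψ x) (RR A S one Ψ x)) (x : S) :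
    Simp A (Ψ x) (LL A S one Ψ x) (RR A S one Ψ x) := by
  have wf : WellFounded (fun x y : S => A.len (x : N) < A.len (y : N)) :=
    InvImage.wf (fun x : S => A.len (x : N)) (wellFounded_lt)
  induction x using wf.induction with
  | _ x ih =>
    apply hΨ
    rintro l ⟨x', n, a1, a2, rfl⟩ r ⟨x'', m, b1, b2, rfl⟩
    have hlt : (x' : N) < x'' := a2.trans b2
    rw [lt_sub_iff_add_lt, add_assoc, ← add_smul]
    rcases A.chain a1 b1 with h | h
    · have h2 := (ih x'' (A.len_lt b1 b2.ne')).left (Ψ x' + (n + m) • one)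
        ⟨x', n + m, h, hlt, rfl⟩
      exact h2
    · have h2 := (ih x' (A.len_lt a1 a2.ne)).right (Ψ x'' - (n + m) • one)
        ⟨x'', n + m, h, hlt, rfl⟩
      rw [lt_sub_iff_add_lt] at h2
      exact h2

variable (hΨ : ∀ x : S, Simp A (Ψ x) (LL A S one Ψ x) (RR A S one Ψ x))

include hΨ

/-- (a) -/
theorem mono (hH1 : A.H1 S) {x y : S} (hxy : (x : N) < y) (n : ℕ) : Ψ x + n • one < Ψ y := by
  by_cases h1 : A.sle (x : N) y
  · exact (hΨ y).left _ ⟨x, n, h1, hxy, rfl⟩
  by_cases h2 : A.sle (y : N) x
  · have := (hΨ x).right _ ⟨y, n, h2, hxy, rfl⟩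
    rwa [lt_sub_iff_add_lt] at this
  obtain ⟨z, hz, a, b, c, d⟩ := hH1 x x.2 y y.2 hxy h1 h2
  have e1 := (hΨ x).right _ ⟨⟨z, hz⟩, n, a, c, rfl⟩
  have e2 := (hΨ y).left _ ⟨⟨z, hz⟩, 0, b, d, rfl⟩
  rw [lt_sub_iff_add_lt] at e1
  rw [zero_smul, add_zero] at e2
  exact e1.trans e2

theorem mono_le (hH1 : A.H1 S) {x y : S} (hxy : (x : N) ≤ y) : Ψ x ≤ Ψ y := by
  rcases hxy.eq_or_lt with h | h
  · have : x = y := Subtype.ext h
    rw [this]
  · have := mono hΨ hH1 h 0
    rw [zero_smul, add_zero] at this
    exact this.le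

/-- (b) -/
theorem additive (hH1 : A.H1 S) (hH2 : A.H2 S) : ∀ x y : S, Ψ (x + y) = Ψ x + Ψ y := by
  have wf : WellFounded (fun x y : S => A.len (x : N) < A.len (y : N)) :=
    InvImage.wf (fun x : S => A.len (x : N)) (wellFounded_lt)
  intro x
  induction x using wf.induction with
  | _ x ihx =>
    intro y
    induction y using wf.induction with
    | _ y ihy =>
      have hsum := (hΨ x).add (hΨ y)
      have hz : Simp A (Ψ (x + y))
          ((fun l => l + Ψ y) '' LL A S one Ψ x ∪ (fun l => Ψ x + l) '' LL A S one Ψ y)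
          ((fun r => r + Ψ y) '' RR A S one Ψ x ∪ (fun r => Ψ x + r) '' RR A S one Ψ y) := by
        refine ⟨?_, ?_, ?_⟩
        · rintro _ (⟨_, ⟨x', n, a, b, rfl⟩, rfl⟩ | ⟨_, ⟨y', n, a, b, rfl⟩, rfl⟩)
          · have e := ihx x' (A.len_lt a b.ne) y
            have h1 : ((x' + y : S) : N) < ((x + y : S) : N) := by
              push_cast
              simpa using b
            have h2 := mono hΨ hH1 h1 n
            rw [e] at h2
            simp only
            rw [add_right_comm]
            exact h2
          · have e := ihy y' (A.len_lt a b.ne)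
            have h1 : ((x + y' : S) : N) < ((x + y : S) : N) := by
              push_cast
              simpa using b
            have h2 := mono hΨ hH1 h1 n
            rw [e] at h2
            simp only
            rw [← add_assoc]
            exact h2
        · rintro _ (⟨_, ⟨x', n, a, b, rfl⟩, rfl⟩ | ⟨_, ⟨y', n, a, b, rfl⟩, rfl⟩)
          · have e := ihx x' (A.len_lt a b.ne') y
            have h1 : ((x + y : S) : N) < ((x' + y : S) : N) := by
              push_cast
              simpa using b
            have h2 := mono hΨ hH1 h1 n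
            rw [e] at h2
            simp only
            rw [sub_add_eq_add_sub, lt_sub_iff_add_lt]
            exact h2
          · have e := ihy y' (A.len_lt a b.ne')
            have h1 : ((x + y : S) : N) < ((x + y' : S) : N) := by
              push_cast
              simpa using b
            have h2 := mono hΨ hH1 h1 n
            rw [e] at h2
            simp only
            rw [← add_sub_assoc, lt_sub_iff_add_lt]
            exact h2
        · intro w hw1 hw2
          apply (hΨ (x + y)).simplest
          · rintro _ ⟨z', n, a, b, rfl⟩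
            have hn : ¬ A.sle ((x : N) + y) z' := by
              intro h
              exact b.ne (A.antisymm a h)
            by_contra hcon
            apply hn
            have b' : (z' : N) < (x : N) + y := b
            refine hH2 x x.2 y y.2 z' z'.2 ?_ ?_
            · intro x' hx' hs
              constructor
              · intro hlt
                by_contra hle
                rw [not_lt] at hle
                apply hcon
                have e := ihx ⟨x', hx'⟩ (A.len_lt hs hlt.ne) y
                have h1 : (z' : N) ≤ ((⟨x', hx'⟩ + y : S) : N) := hle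
                have h2 := mono_le hΨ hH1 h1
                rw [e] at h2
                have h3 := hw1 _ (Or.inl ⟨Ψ ⟨x', hx'⟩ + n • one, ⟨⟨x', hx'⟩, n, hs, hlt, rfl⟩, rfl⟩)
                simp only at h3
                rw [add_right_comm] at h3
                refine lt_of_le_of_lt ?_ h3
                simpa using h2
              · intro hlt
                refine lt_trans b' ?_
                simpa using hlt
            · intro y' hy' hs
              constructor
              · intro hlt
                by_contra hle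
                rw [not_lt] at hle
                apply hcon
                have e := ihy ⟨y', hy'⟩ (A.len_lt hs hlt.ne)
                have h1 : (z' : N) ≤ ((x + ⟨y', hy'⟩ : S) : N) := hle
                have h2 := mono_le hΨ hH1 h1
                rw [e] at h2
                have h3 := hw1 _ (Or.inr ⟨Ψ ⟨y', hy'⟩ + n • one, ⟨⟨y', hy'⟩, n, hs, hlt, rfl⟩, rfl⟩)
                simp only at h3
                rw [← add_assoc] at h3
                refine lt_of_le_of_lt ?_ h3
                simpa using h2
              · intro hlt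
                refine lt_trans b' ?_
                simpa using hlt
          · rintro _ ⟨z', n, a, b, rfl⟩
            have hn : ¬ A.sle ((x : N) + y) z' := by
              intro h
              exact b.ne' (A.antisymm a h)
            by_contra hcon
            apply hn
            have b' : (x : N) + y < (z' : N) := b
            refine hH2 x x.2 y y.2 z' z'.2 ?_ ?_
            · intro x' hx' hs
              constructor
              · intro hlt
                refine lt_trans ?_ b'
                simpa using hlt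
              · intro hlt
                by_contra hle
                rw [not_lt] at hle
                apply hcon
                have e := ihx ⟨x', hx'⟩ (A.len_lt hs hlt.ne') y
                have h1 : ((⟨x', hx'⟩ + y : S) : N) ≤ (z' : N) := hle
                have h2 := mono_le hΨ hH1 h1
                rw [e] at h2
                have h3 := hw2 _ (Or.inl ⟨Ψ ⟨x', hx'⟩ - n • one, ⟨⟨x', hx'⟩, n, hs, hlt, rfl⟩, rfl⟩)
                simp only at h3
                rw [sub_add_eq_add_sub] at h3
                refine lt_of_lt_of_le h3 ?_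
                simpa using h2
            · intro y' hy' hs
              constructor
              · intro hlt
                refine lt_trans ?_ b'
                simpa using hlt
              · intro hlt
                by_contra hle
                rw [not_lt] at hle
                apply hcon
                have e := ihy ⟨y', hy'⟩ (A.len_lt hs hlt.ne')
                have h1 : ((x + ⟨y', hy'⟩ : S) : N) ≤ (z' : N) := hle
                have h2 := mono_le hΨ hH1 h1
                rw [e] at h2
                have h3 := hw2 _ (Or.inr ⟨Ψ ⟨y', hy'⟩ - n • one, ⟨⟨y', hy'⟩, n, hs, hlt, rfl⟩, rfl⟩)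
                simp only at h3
                rw [← add_sub_assoc] at h3
                refine lt_of_lt_of_le h3 ?_
                simpa using h2
      exact hz.unique hsum

omit hΨ in
theorem sle_zero (A : SurrealLike N) (w : N) : A.sle 0 w := by
  obtain ⟨z, -, -, hz⟩ := A.cut ∅ ∅ inferInstance inferInstance (by simp)
  have h1 : ∀ w, A.sle z w := fun w => hz w (by simp) (by simp)
  have h2 : A.sle (-z) (- -z) := A.neg (h1 (-z))
  rw [neg_neg] at h2
  have h3 : z = -z := A.antisymm (h1 (-z)) h2
  have h4 : z = 0 := by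
    rcases lt_trichotomy z 0 with h | h | h
    · have : 0 < -z := neg_pos.mpr h
      rw [← h3] at this
      exact absurd this (not_lt.mpr h.le)
    · exact h
    · have : -z < 0 := neg_neg_of_pos h
      rw [← h3] at this
      exact absurd this (not_lt.mpr h.le)
  rw [← h4]
  exact h1 w

omit hΨ in
/-- (c) -/
theorem simp_smul (A : SurrealLike N) (h0 : 0 < one) (h1 : ∀ w, 0 < w → A.sle one w) (n : ℕ) :
    Simp A ((n + 1) • one) {n • one} ∅ := by
  have hone : Simp A one {0} ∅ := by
    refine ⟨?_, by simp, ?_⟩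
    · intro l hl
      rw [Set.mem_singleton_iff.mp hl]
      exact h0
    · intro w hw _
      exact h1 w (hw 0 rfl)
  induction n with
  | zero =>
    simpa using hone
  | succ n ih =>
    have h2 := ih.add hone
    have e : (n + 1 + 1) • one = (n + 1) • one + one := by rw [add_smul, one_smul]
    rw [e]
    refine ⟨?_, by simp, ?_⟩
    · intro l hl
      rw [Set.mem_singleton_iff.mp hl]
      simpa using h0
    · intro w hw _
      apply h2.simplest
      · rintro _ (⟨l, hl, rfl⟩ | ⟨l, hl, rfl⟩)
        · have hl' : l = n • one := hl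
          rw [hl']
          simp only
          have := hw _ rfl
          rwa [add_smul, one_smul] at this
        · have hl' : l = 0 := hl
          rw [hl']
          simp only
          rw [add_zero]
          exact hw _ rfl
      · rintro _ (⟨l, hl, rfl⟩ | ⟨l, hl, rfl⟩)
        · exact absurd hl (by simp)
        · exact absurd hl (by simp)

/-- the options of `Ψ x + n one` -/
theorem simp_add (h0 : 0 < one) (h1 : ∀ w, 0 < w → A.sle one w) (x : S) (n : ℕ) :
    ∃ L R : Set N, Simp A (Ψ x + n • one) L R ∧
      (∀ l ∈ L, (∃ (x' : S) (m : ℕ), A.sle (x' : N) x ∧ (x' : N) < x ∧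
          l = Ψ x' + (m + n) • one) ∨ (∃ m : ℕ, n = m + 1 ∧ l = Ψ x + m • one)) ∧
      (∀ r ∈ R, ∃ (x' : S) (m : ℕ), A.sle (x' : N) x ∧ (x : N) < x' ∧
          r = Ψ x' - m • one + n • one) := by
  cases n with
  | zero =>
    refine ⟨LL A S one Ψ x, RR A S one Ψ x, ?_, ?_, ?_⟩
    · rw [zero_smul, add_zero]
      exact hΨ x
    · rintro _ ⟨x', m, a, b, rfl⟩
      exact Or.inl ⟨x', m, a, b, rfl⟩
    · rintro _ ⟨x', m, a, b, rfl⟩
      exact ⟨x', m, a, b, by rw [zero_smul, add_zero]⟩
  | succ n =>
    refine ⟨_, _, (hΨ x).add (simp_smul A h0 h1 n), ?_, ?_⟩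
    · rintro _ (⟨_, ⟨x', m, a, b, rfl⟩, rfl⟩ | ⟨l, hl, rfl⟩)
      · refine Or.inl ⟨x', m, a, b, ?_⟩
        simp only
        rw [add_assoc, ← add_smul]
      · have hl' : l = n • one := hl
        rw [hl']
        exact Or.inr ⟨n, rfl, rfl⟩
    · rintro _ (⟨_, ⟨x', m, a, b, rfl⟩, rfl⟩ | ⟨l, hl, rfl⟩)
      · exact ⟨x', m, a, b, rfl⟩
      · exact absurd hl (by simp)

/-- nonnegative multiples, initial segments -/
theorem init_nonneg (h0 : 0 < one) (h1 : ∀ w, 0 < w → A.sle one w) (x : S)
    (ih : ∀ x' : S, A.sle (x' : N) x → (x' : N) ≠ x → ∀ (k : ℤ) (v : N),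
      A.sle v (Ψ x' + k • one) → ∃ (y : S) (m : ℤ), v = Ψ y + m • one) (n : ℕ) :
    ∀ v : N, A.sle v (Ψ x + n • one) → ∃ (y : S) (m : ℤ), v = Ψ y + m • one := by
  induction n with
  | zero =>
    intro v hv
    obtain ⟨L, R, hs, hL, hR⟩ := simp_add hΨ h0 h1 x 0
    rcases lt_trichotomy v (Ψ x + 0 • one) with h | h | h
    · obtain ⟨l, hl, hle⟩ := hs.exists_left hv h
      rcases hL l hl with ⟨x', m, a, b, e⟩ | ⟨m, e, -⟩
      · have e' : l = Ψ x' + ((m + 0 : ℕ) : ℤ) • one := by rw [e, natCast_zsmul]
        rcases hle.eq_or_lt with h2 | h2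
        · exact ⟨x', _, by rw [h2, e']⟩
        · have h3 := A.between_left hv h2 (hs.left l hl)
          rw [e'] at h3
          exact ih x' a b.ne _ v h3
      · exact absurd e (by omega)
    · exact ⟨x, 0, by rw [h, zero_smul, zero_smul]⟩
    · obtain ⟨r, hr, hle⟩ := hs.exists_right hv h
      obtain ⟨x', m, a, b, e⟩ := hR r hr
      have e' : r = Ψ x' + (-(m : ℤ)) • one := by
        rw [e, zero_smul, add_zero, neg_smul, natCast_zsmul, sub_eq_add_neg]
      rcases hle.eq_or_lt with h2 | h2
      · exact ⟨x', _, by rw [← h2, e']⟩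
      · have h3 := A.between_right hv (hs.right r hr) h2
        rw [e'] at h3
        exact ih x' a b.ne' _ v h3
  | succ n ihn =>
    intro v hv
    obtain ⟨L, R, hs, hL, hR⟩ := simp_add hΨ h0 h1 x (n + 1)
    rcases lt_trichotomy v (Ψ x + (n + 1) • one) with h | h | h
    · obtain ⟨l, hl, hle⟩ := hs.exists_left hv h
      rcases hL l hl with ⟨x', m, a, b, e⟩ | ⟨m, e, e2⟩
      · have e' : l = Ψ x' + ((m + (n + 1) : ℕ) : ℤ) • one := by rw [e, natCast_zsmul]
        rcases hle.eq_or_lt with h2 | h2
        · exact ⟨x', _, by rw [h2, e']⟩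
        · have h3 := A.between_left hv h2 (hs.left l hl)
          rw [e'] at h3
          exact ih x' a b.ne _ v h3
      · have hm : m = n := by omega
        subst hm
        rcases hle.eq_or_lt with h2 | h2
        · exact ⟨x, m, by rw [h2, e2, natCast_zsmul]⟩
        · have h3 := A.between_left hv h2 (hs.left l hl)
          rw [e2] at h3
          exact ihn v h3
    · exact ⟨x, ((n + 1 : ℕ) : ℤ), by rw [h, natCast_zsmul]⟩
    · obtain ⟨r, hr, hle⟩ := hs.exists_right hv h
      obtain ⟨x', m, a, b, e⟩ := hR r hr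
      have e' : r = Ψ x' + (((n + 1 : ℕ) : ℤ) - (m : ℤ)) • one := by
        rw [e, sub_smul, natCast_zsmul, natCast_zsmul]
        abel
      rcases hle.eq_or_lt with h2 | h2
      · exact ⟨x', _, by rw [← h2, e']⟩
      · have h3 := A.between_right hv (hs.right r hr) h2
        rw [e'] at h3
        exact ih x' a b.ne' _ v h3

theorem psi_neg (hH1 : A.H1 S) (hH2 : A.H2 S) (x : S) : Ψ (-x) = -Ψ x := by
  have hadd := additive hΨ hH1 hH2
  have h0 : Ψ 0 = 0 := by
    have := hadd 0 0
    rw [add_zero] at this
    exact left_eq_add.mp this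
  have h1 := hadd x (-x)
  rw [add_neg_cancel, h0] at h1
  exact eq_neg_of_add_eq_zero_right h1.symm

theorem init_all (hH1 : A.H1 S) (hH2 : A.H2 S) (h0 : 0 < one)
    (h1 : ∀ w, 0 < w → A.sle one w) (x : S) : ∀ (k : ℤ) (v : N),
      A.sle v (Ψ x + k • one) → ∃ (y : S) (m : ℤ), v = Ψ y + m • one := by
  have wf : WellFounded (fun x y : S => A.len (x : N) < A.len (y : N)) :=
    InvImage.wf (fun x : S => A.len (x : N)) (wellFounded_lt)
  induction x using wf.induction with
  | _ x ih =>
    have ih' : ∀ x' : S, A.sle (x' : N) x → (x' : N) ≠ x → ∀ (k : ℤ) (v : N),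
      A.sle v (Ψ x' + k • one) → ∃ (y : S) (m : ℤ), v = Ψ y + m • one :=
      fun x' a b => ih x' (A.len_lt a b)
    intro k v hv
    obtain ⟨n, rfl | rfl⟩ := k.eq_nat_or_neg
    · rw [natCast_zsmul] at hv
      exact init_nonneg hΨ h0 h1 x ih' n v hv
    · have hv' : A.sle (-v) (Ψ (-x) + n • one) := by
        have := A.neg hv
        rw [neg_add, neg_smul, neg_neg, natCast_zsmul, ← psi_neg hΨ hH1 hH2] at this
        exact this
      have ih'' : ∀ x' : S, A.sle (x' : N) ((-x : S) : N) → (x' : N) ≠ ((-x : S) : N) →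
          ∀ (k : ℤ) (v : N), A.sle v (Ψ x' + k • one) →
            ∃ (y : S) (m : ℤ), v = Ψ y + m • one := by
        intro x' a b k v hv
        have a' : A.sle ((-x' : S) : N) x := by
          have := A.neg a
          push_cast at this ⊢
          rwa [neg_neg] at this
        have b' : ((-x' : S) : N) ≠ x := by
          intro h
          apply b
          push_cast at h ⊢
          rw [← h, neg_neg]
        have hv' : A.sle (-v) (Ψ (-x') + (-k) • one) := by
          have := A.neg hv
          rw [neg_add, ← neg_smul, ← psi_neg hΨ hH1 hH2] at this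
          exact this
        obtain ⟨y, m, e⟩ := ih' (-x') a' b' (-k) (-v) hv'
        refine ⟨-y, -m, ?_⟩
        rw [psi_neg hΨ hH1 hH2, neg_smul, ← neg_add, ← e, neg_neg]
      obtain ⟨y, m, e⟩ := init_nonneg hΨ h0 h1 (-x) ih'' n (-v) hv'
      refine ⟨-y, -m, ?_⟩
      rw [psi_neg hΨ hH1 hH2, neg_smul, ← neg_add, ← e, neg_neg]

theorem omn_nonneg (hH1 : A.H1 S) (h0 : 0 < one)
    (h1 : ∀ w, 0 < w → A.sle one w) (x : S) (n : ℕ) (w : N)
    (hw1 : Ψ x + n • one - one < w) (hw2 : w < Ψ x + n • one + one) :
    A.sle (Ψ x + n • one) w := by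
  obtain ⟨L, R, hs, hL, hR⟩ := simp_add hΨ h0 h1 x n
  apply hs.simplest
  · intro l hl
    refine lt_of_le_of_lt ?_ hw1
    rcases hL l hl with ⟨x', m, a, b, e⟩ | ⟨m, e, e2⟩
    · have h2 := mono hΨ hH1 b (m + 1)
      rw [e, le_sub_iff_add_le]
      have e3 : Ψ x' + (m + n) • one + one = (Ψ x' + (m + 1) • one) + n • one := by
        rw [add_smul, add_smul, one_smul]
        abel
      rw [e3]
      have := h2.le
      simpa using this
    · rw [e2, e, le_sub_iff_add_le, add_smul, one_smul, add_assoc]
  · intro r hr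
    refine lt_of_lt_of_le hw2 ?_
    obtain ⟨x', m, a, b, e⟩ := hR r hr
    have h2 := mono hΨ hH1 b (m + 1)
    rw [e]
    have e3 : Ψ x + n • one + one = (Ψ x + (m + 1) • one) - m • one + n • one := by
      rw [add_smul, one_smul]
      abel
    rw [e3]
    have := h2.le
    simpa using this

end main

end

end PB

open PB in
theorem partB {N : Type (u+1)} [AddCommGroup N] [LinearOrder N] [IsOrderedAddMonoid N]
    (A : SurrealLike N) : StmtB A := by
  intro S hH1 hH2 one h0 h1
  obtain ⟨Ψ, hΨ'⟩ := exists_Psi A S one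
  have hΨ : ∀ x : S, Simp A (Ψ x) (LL A S one Ψ x) (RR A S one Ψ x) := cond hΨ'
  refine ⟨AddMonoidHom.mk' Ψ (additive hΨ hH1 hH2), ?_, ?_, ?_⟩
  · intro x y hxy n
    exact mono hΨ hH1 hxy n
  · intro x k v hv
    exact init_all hΨ hH1 hH2 h0 h1 x k v hv
  · intro x k w hw1 hw2
    change Ψ x + k • one - one < w at hw1
    change w < Ψ x + k • one + one at hw2
    show A.sle (Ψ x + k • one) w
    obtain ⟨n, rfl | rfl⟩ := k.eq_nat_or_neg
    · rw [natCast_zsmul] at *
      exact omn_nonneg hΨ hH1 h0 h1 x n w hw1 hw2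
    · have e : -(Ψ x + (-(n : ℤ)) • one) = Ψ (-x) + n • one := by
        rw [neg_add, neg_smul, neg_neg, natCast_zsmul, psi_neg hΨ hH1 hH2]
      have h2 := omn_nonneg hΨ hH1 h0 h1 (-x) n (-w)
        (by
          rw [← e]
          have := neg_lt_neg hw2
          rw [neg_add] at this
          rwa [← sub_eq_add_neg] at this)
        (by
          rw [← e]
          have := neg_lt_neg hw1
          rw [sub_eq_add_neg, neg_add, neg_neg] at this
          exact this)
      rw [← e] at h2
      have h3 := A.neg h2
      rwa [neg_neg, neg_neg] at h3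

end R785.SI
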