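import Pool.Agent.R785.SI.Defs

/-!
Part C of project SI: the ordered group isomorphism from `G` onto an initial subgroup.
-/

universe u

namespace R785.SI

section

variable {N : Type (u+1)} [AddCommGroup N] [LinearOrder N] [IsOrderedAddMonoid N]

/-- The homomorphism `(s, k) ↦ Ψ s + k e`. -/
def pairHom (S : AddSubgroup N) (Ψ : S →+ N) (e : N) : S × ℤ →+ N where
  toFun p := Ψ p.1 + p.2 • e
  map_zero' := by simp
  map_add' p q := by
    simp only [Prod.fst_add, Prod.snd_add, map_add, add_smul]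
    abel

theorem pairHom_pos (S : AddSubgroup N) (Ψ : S →+ N) (e : N) (he : 0 < e)
    (h : ∀ s : S, 0 < s → ∀ n : ℕ, n • e < Ψ s) (p : S × ℤ) :
    0 < pairHom S Ψ e p ↔ (0 < p.1 ∨ (p.1 = 0 ∧ 0 < p.2)) := by
  have key : ∀ (s : S) (k : ℤ), 0 < s → 0 < Ψ s + k • e := by
    intro s k hs
    have h1 := h s hs k.natAbs
    have h2 : -((k.natAbs : ℕ) • e) ≤ k • e := by
      have h3 : (-(k.natAbs : ℤ)) • e ≤ k • e := by
        apply zsmul_le_zsmul_left he.le
        omega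
      rwa [neg_smul, natCast_zsmul] at h3
    have h4 : (0 : N) < Ψ s + -((k.natAbs : ℕ) • e) := by
      rw [← sub_eq_add_neg]
      exact sub_pos.mpr h1
    exact h4.trans_le (by gcongr)
  obtain ⟨s, k⟩ := p
  change 0 < Ψ s + k • e ↔ (0 < s ∨ (s = 0 ∧ 0 < k))
  constructor
  · intro hp
    rcases lt_trichotomy s 0 with hs | hs | hs
    · exfalso
      have h5 := key (-s) (-k) (neg_pos.mpr hs)
      rw [map_neg, neg_smul, ← neg_add] at h5
      exact lt_asymm hp (neg_pos.mp h5)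
    · right
      refine ⟨hs, ?_⟩
      subst hs
      rw [map_zero, zero_add] at hp
      by_contra hk
      have h6 : k • e ≤ (0 : ℤ) • e := zsmul_le_zsmul_left he.le (not_lt.mp hk)
      rw [zero_smul] at h6
      exact absurd hp (not_lt.mpr h6)
    · exact Or.inl hs
  · rintro (hs | ⟨rfl, hk⟩)
    · exact key s k hs
    · rw [map_zero, zero_add]
      exact zsmul_pos he hk

theorem pairHom_inj (S : AddSubgroup N) (Ψ : S →+ N) (e : N) (he : 0 < e)
    (h : ∀ s : S, 0 < s → ∀ n : ℕ, n • e < Ψ s) :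
    Function.Injective (pairHom S Ψ e) := by
  rw [injective_iff_map_eq_zero]
  intro p hp
  have h1 : ¬ 0 < pairHom S Ψ e p := by rw [hp]; exact lt_irrefl _
  have h2 : ¬ 0 < pairHom S Ψ e (-p) := by rw [map_neg, hp, neg_zero]; exact lt_irrefl _
  rw [pairHom_pos S Ψ e he h] at h1 h2
  obtain ⟨s, k⟩ := p
  simp only [Prod.fst_neg, Prod.snd_neg, Left.neg_pos_iff, neg_eq_zero] at h1 h2
  push Not at h1 h2
  have hs : s = 0 := le_antisymm h1.1 h2.1
  have hk : k = 0 := le_antisymm (h1.2 hs) (h2.2 hs)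
  rw [hs, hk]
  rfl

theorem partC (A : SurrealLike N) (hA : StmtA A) (hB : StmtB A) : StmtC A := by
  rintro one hone hsimp G hG ⟨ε, hε⟩
  obtain ⟨S, hSG, hcov, harch, h1, h2⟩ := hA G ε hG hε
  obtain ⟨Ψ, hΨ1, hΨ2, hΨ3⟩ := hB S h1 h2 one hone hsimp
  have hf : ∀ s : S, 0 < s → ∀ n : ℕ, n • ε < S.subtype s := fun s hs n =>
    harch s s.2 hs n
  have hg : ∀ s : S, 0 < s → ∀ n : ℕ, n • one < Ψ s := fun s hs n => by
    have := hΨ1 0 s hs n
    rwa [map_zero, zero_add] at this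
  have hfinj := pairHom_inj S S.subtype ε hε.2.1 hf
  have hginj := pairHom_inj S Ψ one hone hg
  have hrange : (pairHom S S.subtype ε).range = G := by
    apply le_antisymm
    · rintro _ ⟨⟨s, k⟩, rfl⟩
      exact G.add_mem (hSG s.2) (G.zsmul_mem hε.1 k)
    · intro g hgG
      obtain ⟨s, hs, k, rfl⟩ := hcov g hgG
      exact ⟨(⟨s, hs⟩, k), rfl⟩
  refine ⟨(pairHom S Ψ one).range, ?_, ?_, ?_⟩
  · rintro _ ⟨⟨s, k⟩, rfl⟩ v hv
    obtain ⟨y, m, rfl⟩ := hΨ2 s k v hv
    exact ⟨(y, m), rfl⟩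
  · rintro _ ⟨⟨s, k⟩, rfl⟩ w hw1 hw2
    exact hΨ3 s k w hw1 hw2
  · let f' : S × ℤ ≃+ G :=
      (AddMonoidHom.ofInjective hfinj).trans (AddEquiv.addSubgroupCongr hrange)
    let g' : S × ℤ ≃+ (pairHom S Ψ one).range := AddMonoidHom.ofInjective hginj
    have hf' : ∀ p, ((f' p : G) : N) = pairHom S S.subtype ε p := fun p => rfl
    have hg' : ∀ p, ((g' p : (pairHom S Ψ one).range) : N) = pairHom S Ψ one p := fun p => rfl
    have hpos : ∀ p, 0 < f' p ↔ 0 < g' p := by
      intro p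
      have a1 : 0 < f' p ↔ 0 < pairHom S S.subtype ε p := by
        rw [← hf']; rfl
      have a2 : 0 < g' p ↔ 0 < pairHom S Ψ one p := by
        rw [← hg']; rfl
      rw [a1, a2, pairHom_pos S S.subtype ε hε.2.1 hf, pairHom_pos S Ψ one hone hg]
    have hlt : ∀ p q, f' p < f' q ↔ g' p < g' q := by
      intro p q
      rw [← sub_pos, ← map_sub, hpos, map_sub, sub_pos]
    refine ⟨{ f'.symm.trans g' with map_le_map_iff' := ?_ }⟩
    intro a b
    obtain ⟨p, rfl⟩ := f'.surjective a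
    obtain ⟨q, rfl⟩ := f'.surjective b
    have e2 : ∀ r, (f'.symm.trans g') (f' r) = g' r := fun r => by simp
    change (f'.symm.trans g') (f' p) ≤ (f'.symm.trans g') (f' q) ↔ _
    rw [e2, e2, ← not_lt, ← not_lt, hlt]

end

end R785.SI
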