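import Mathlib

/-!
# Surreal numbers as sign expansions: order, simplicity, cuts
-/

universe u

namespace R785.SI

/-- A surreal number, given by its sign expansion: `sgn β` is the sign in place `β`, it is
nonzero exactly for `β < len`. -/
structure Surreal : Type (u+1) where
  /-- the sign in place `β` (`0` from `len` on) -/
  sgn : Ordinal.{u} → SignType
  /-- the length of the sign expansion -/
  len : Ordinal.{u}
  spec : ∀ β, sgn β ≠ 0 ↔ β < len

namespace Surreal

theorem sgn_eq_zero {x : Surreal.{u}} {β : Ordinal.{u}} : x.sgn β = 0 ↔ x.len ≤ β := by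
  rw [← not_lt, ← x.spec β, not_not]

theorem ext' {x y : Surreal.{u}} (h : ∀ β, x.sgn β = y.sgn β) : x = y := by
  have hs : x.sgn = y.sgn := funext h
  have hl : x.len = y.len := by
    apply le_antisymm
    · rw [← sgn_eq_zero, hs, sgn_eq_zero]
    · rw [← sgn_eq_zero, ← hs, sgn_eq_zero]
  cases x; cases y; simp_all

noncomputable instance : LinearOrder Surreal.{u} :=
  LinearOrder.lift' (fun x => toLex x.sgn)
    (fun _ _ h => ext' (congrFun (toLex.injective h)))

theorem lt_def {x y : Surreal.{u}} :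
    x < y ↔ ∃ β, (∀ γ < β, x.sgn γ = y.sgn γ) ∧ x.sgn β < y.sgn β := Iff.rfl

/-- `sle x y`: the sign expansion of `x` is an initial segment of that of `y`. -/
def sle (x y : Surreal.{u}) : Prop := ∀ β < x.len, x.sgn β = y.sgn β

theorem sle_refl (x : Surreal.{u}) : sle x x := fun _ _ => rfl

theorem lt_len_of_sle {x y : Surreal.{u}} (h : sle x y) {β : Ordinal.{u}} (hβ : β < x.len) :
    β < y.len := by
  rw [← y.spec, ← h β hβ, x.spec]; exact hβ

theorem sle_trans {x y z : Surreal.{u}} (h : sle x y) (h' : sle y z) : sle x z := by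
  intro β hβ
  rw [h β hβ, h' β (lt_len_of_sle h hβ)]

theorem len_le_of_sle {x y : Surreal.{u}} (h : sle x y) : x.len ≤ y.len := by
  by_contra hc
  push Not at hc
  exact lt_irrefl _ (lt_len_of_sle h hc)

theorem eq_of_sle_of_len_le {x y : Surreal.{u}} (h : sle x y) (h' : y.len ≤ x.len) : x = y := by
  apply ext'
  intro β
  by_cases hβ : β < x.len
  · exact h β hβ
  · push Not at hβ
    rw [sgn_eq_zero.2 hβ, sgn_eq_zero.2 (h'.trans hβ)]

theorem sle_antisymm {x y : Surreal.{u}} (h : sle x y) (h' : sle y x) : x = y :=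
  eq_of_sle_of_len_le h (len_le_of_sle h')

theorem len_lt_of_sle {x y : Surreal.{u}} (h : sle x y) (hne : x ≠ y) : x.len < y.len := by
  by_contra hc
  push Not at hc
  exact hne (eq_of_sle_of_len_le h hc)

theorem sle_chain {a b x : Surreal.{u}} (ha : sle a x) (hb : sle b x) : sle a b ∨ sle b a := by
  rcases le_total a.len b.len with h | h
  · left
    intro β hβ
    rw [ha β hβ, hb β (hβ.trans_le h)]
  · right
    intro β hβ
    rw [hb β hβ, ha β (hβ.trans_le h)]

/-- the initial segment of length `min α len` -/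
noncomputable def trunc (x : Surreal.{u}) (α : Ordinal.{u}) : Surreal.{u} where
  sgn β := if β < α then x.sgn β else 0
  len := min α x.len
  spec β := by
    by_cases h : β < α
    · simp [h, x.spec β]
    · simp [h]

theorem trunc_sgn_lt (x : Surreal.{u}) {α β : Ordinal.{u}} (h : β < α) :
    (trunc x α).sgn β = x.sgn β := by simp [trunc, h]

theorem trunc_sgn_self (x : Surreal.{u}) (α : Ordinal.{u}) :
    (trunc x α).sgn α = 0 := by simp [trunc]

theorem trunc_sle (x : Surreal.{u}) (α : Ordinal.{u}) : sle (trunc x α) x := by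
  intro β hβ
  have : β < α := lt_of_lt_of_le hβ (min_le_left _ _)
  exact trunc_sgn_lt x this

theorem trunc_sle_of_agree {x y : Surreal.{u}} {α : Ordinal.{u}}
    (h : ∀ β < α, x.sgn β = y.sgn β) : sle (trunc x α) y := by
  intro β hβ
  have : β < α := lt_of_lt_of_le hβ (min_le_left _ _)
  rw [trunc_sgn_lt x this, h β this]

/-- the first difference of two distinct numbers -/
theorem exists_first_diff {x y : Surreal.{u}} (h : x ≠ y) :
    ∃ β, (∀ γ < β, x.sgn γ = y.sgn γ) ∧ x.sgn β ≠ y.sgn β := by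
  have hex : ∃ β, x.sgn β ≠ y.sgn β := by
    by_contra hc
    push Not at hc
    exact h (ext' hc)
  refine ⟨WellFounded.min (α := Ordinal.{u}) Ordinal.lt_wf {β | x.sgn β ≠ y.sgn β} hex, ?_, ?_⟩
  · intro γ hγ
    by_contra hc
    exact WellFounded.not_lt_min Ordinal.lt_wf (s := {β | x.sgn β ≠ y.sgn β}) hc hγ
  · exact WellFounded.min_mem Ordinal.lt_wf {β | x.sgn β ≠ y.sgn β} hex

theorem lt_of_first_diff {x y : Surreal.{u}} (h : x < y) {β : Ordinal.{u}}
    (hb : ∀ γ < β, x.sgn γ = y.sgn γ) (hne : x.sgn β ≠ y.sgn β) : x.sgn β < y.sgn β := by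
  by_contra hc
  have hlt : y.sgn β < x.sgn β := lt_of_le_of_ne (not_lt.1 hc) (Ne.symm hne)
  have : y < x := lt_def.2 ⟨β, fun γ hγ => (hb γ hγ).symm, hlt⟩
  exact lt_asymm h this

theorem sle_of_agree {x y : Surreal.{u}} {β : Ordinal.{u}}
    (hb : ∀ γ < β, x.sgn γ = y.sgn γ) (h : x.sgn β = 0) : sle x y := by
  intro γ hγ
  exact hb γ (hγ.trans_le (sgn_eq_zero.1 h))

theorem sign_cases {a b : SignType} (h : a < b) (ha : a ≠ 0) (hb : b ≠ 0) : a < 0 ∧ 0 < b := by
  revert a b; decide

theorem meet {x y : Surreal.{u}} (h : x < y) (h1 : ¬ sle x y) (h2 : ¬ sle y x) :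
    ∃ z, sle z x ∧ sle z y ∧ x < z ∧ z < y := by
  obtain ⟨β, hb, hlt⟩ := lt_def.1 h
  have hx : x.sgn β ≠ 0 := fun h0 => h1 (sle_of_agree hb h0)
  have hy : y.sgn β ≠ 0 := fun h0 => h2 (sle_of_agree (fun γ hγ => (hb γ hγ).symm) h0)
  obtain ⟨hx0, hy0⟩ := sign_cases hlt hx hy
  refine ⟨trunc x β, trunc_sle x β, trunc_sle_of_agree hb, ?_, ?_⟩
  · exact lt_def.2 ⟨β, fun γ hγ => (trunc_sgn_lt x hγ).symm, by rw [trunc_sgn_self]; exact hx0⟩
  · exact lt_def.2 ⟨β, fun γ hγ => by rw [trunc_sgn_lt x hγ, hb γ hγ],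
      by rw [trunc_sgn_self]; exact hy0⟩

theorem between_left {v l g : Surreal.{u}} (h : sle v g) (h1 : v < l) (h2 : l < g) :
    sle v l := by
  obtain ⟨β, hb, hlt⟩ := lt_def.1 h1
  intro γ hγ
  rcases lt_or_ge γ β with h3 | h3
  · exact hb γ h3
  · exfalso
    have hβ : β < v.len := h3.trans_lt hγ
    have : g < l := lt_def.2 ⟨β, fun δ hδ => by rw [← h δ (hδ.trans hβ), hb δ hδ],
      by rw [← h β hβ]; exact hlt⟩
    exact lt_asymm this h2

theorem between_right {v l g : Surreal.{u}} (h : sle v g) (h1 : g < l) (h2 : l < v) :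
    sle v l := by
  obtain ⟨β, hb, hlt⟩ := lt_def.1 h2
  intro γ hγ
  rcases lt_or_ge γ β with h3 | h3
  · exact (hb γ h3).symm
  · exfalso
    have hβ : β < v.len := h3.trans_lt hγ
    have : l < g := lt_def.2 ⟨β, fun δ hδ => by rw [← h δ (hδ.trans hβ), hb δ hδ],
      by rw [← h β hβ]; exact hlt⟩
    exact lt_asymm this h1

theorem eq_trunc_of_sle {v x : Surreal.{u}} (h : sle v x) : v = trunc x v.len := by
  apply ext'
  intro β
  by_cases hβ : β < v.len
  · rw [trunc_sgn_lt x hβ, h β hβ]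
  · rw [sgn_eq_zero.2 (not_lt.1 hβ)]; simp [trunc, hβ]

theorem small_sle (x : Surreal.{u}) : Small.{u} {v | sle v x} := by
  have : Small.{u} (Set.Iic x.len) := inferInstance
  apply small_of_injective (β := Set.Iic x.len)
    (f := fun v : {v | sle v x} => (⟨v.1.len, len_le_of_sle v.2⟩ : Set.Iic x.len))
  intro v w h
  have h' : v.1.len = w.1.len := congrArg Subtype.val h
  apply Subtype.ext
  rw [eq_trunc_of_sle v.2, eq_trunc_of_sle w.2, h']

theorem exists_len_bound (L : Set Surreal.{u}) (hL : Small.{u} L) :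
    ∃ b : Ordinal.{u}, ∀ x ∈ L, x.len < b := by
  have : Small.{u} (Surreal.len '' L) := small_image _ _
  obtain ⟨b, hb⟩ : BddAbove (Surreal.len '' L) := Ordinal.bddAbove_of_small
  exact ⟨Order.succ b, fun x hx => Order.lt_succ_of_le (hb (Set.mem_image_of_mem _ hx))⟩

open Classical in
/-- auxiliary sign function: the supremum of `L` -/
noncomputable def zf (L : Set Surreal.{u}) : Ordinal.{u} → SignType :=
  WellFounded.fix Ordinal.lt_wf (fun β ih =>
    if ∃ a ∈ L, (∀ γ (h : γ < β), a.sgn γ = ih γ h) ∧ 0 ≤ a.sgn β then 1 else -1)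

open Classical in
theorem zf_eq (L : Set Surreal.{u}) (β : Ordinal.{u}) :
    zf L β = if ∃ a ∈ L, (∀ γ < β, a.sgn γ = zf L γ) ∧ 0 ≤ a.sgn β then 1 else -1 := by
  unfold zf
  rw [WellFounded.fix_eq]

theorem zf_ne (L : Set Surreal.{u}) (β : Ordinal.{u}) : zf L β ≠ 0 := by
  classical
  rw [zf_eq]; split_ifs <;> decide

theorem exists_between (L R : Set Surreal.{u}) (hL : Small.{u} L) (hR : Small.{u} R)
    (h : ∀ l ∈ L, ∀ r ∈ R, l < r) : ∃ z : Surreal.{u}, (∀ l ∈ L, l < z) ∧ ∀ r ∈ R, z < r := by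
  classical
  obtain ⟨b1, hb1⟩ := exists_len_bound L hL
  obtain ⟨b2, hb2⟩ := exists_len_bound R hR
  set b := max b1 b2 with hb
  have hbL : ∀ x ∈ L, x.len < b := fun x hx => (hb1 x hx).trans_le (le_max_left _ _)
  have hbR : ∀ x ∈ R, x.len < b := fun x hx => (hb2 x hx).trans_le (le_max_right _ _)
  let z : Surreal.{u} := ⟨fun β => if β < b then zf L β else 0, b, by
    intro β
    by_cases h : β < b
    · simp [h, zf_ne]
    · simp [h]⟩
  have hz : ∀ β < b, z.sgn β = zf L β := fun β hβ => by simp [z, hβ]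
  have hz' : ∀ β, b ≤ β → z.sgn β = 0 := fun β hβ => by simp [z, not_lt.2 hβ]
  have hzlen : z.len = b := rfl
  refine ⟨z, ?_, ?_⟩
  · intro a ha
    rcases lt_trichotomy a z with h1 | h1 | h1
    · exact h1
    · exfalso; have := hbL a ha; rw [h1, hzlen] at this; exact lt_irrefl _ this
    · exfalso
      obtain ⟨β, hag, hlt⟩ := lt_def.1 h1
      rcases lt_or_ge β b with hβ | hβ
      · rw [hz β hβ, zf_eq] at hlt
        split_ifs at hlt with hc
        · exact absurd hlt (by revert hlt; cases a.sgn β <;> decide)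
        · apply hc
          refine ⟨a, ha, fun γ hγ => ?_, ?_⟩
          · rw [← hag γ hγ, hz γ (hγ.trans hβ)]
          · revert hlt; cases a.sgn β <;> decide
      · rw [hz' β hβ, sgn_eq_zero.2 ((hbL a ha).le.trans hβ)] at hlt
        exact lt_irrefl _ hlt
  · intro r hr
    rcases lt_trichotomy z r with h1 | h1 | h1
    · exact h1
    · exfalso; have := hbR r hr; rw [← h1, hzlen] at this; exact lt_irrefl _ this
    · exfalso
      obtain ⟨β, hag, hlt⟩ := lt_def.1 h1
      rcases lt_or_ge β b with hβ | hβ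
      · rw [hz β hβ, zf_eq] at hlt
        split_ifs at hlt with hc
        · obtain ⟨a, ha, hag', h0⟩ := hc
          have hag2 : ∀ γ < β, a.sgn γ = r.sgn γ := fun γ hγ => by
            rw [hag' γ hγ, ← hz γ (hγ.trans hβ), hag γ hγ]
          have har := h a ha r hr
          by_cases hne : a.sgn β = r.sgn β
          · have h00 : a.sgn β = 0 := by
              rw [← hne] at hlt
              revert hlt h0; cases a.sgn β <;> decide
            have h01 : r.sgn β = 0 := by rw [← hne]; exact h00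
            have e1 : sle a r := sle_of_agree hag2 h00
            have e2 : sle r a := sle_of_agree (fun γ hγ => (hag2 γ hγ).symm) h01
            rw [sle_antisymm e1 e2] at har
            exact lt_irrefl _ har
          · have := lt_of_first_diff har hag2 hne
            revert this hlt h0
            cases a.sgn β <;> cases r.sgn β <;> decide
        · revert hlt; cases r.sgn β <;> decide
      · rw [hz' β hβ, sgn_eq_zero.2 ((hbR r hr).le.trans hβ)] at hlt
        exact lt_irrefl _ hlt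

/-- `z` is the simplest number strictly between `L` and `R`. -/
def IsSimplest (L R : Set Surreal.{u}) (z : Surreal.{u}) : Prop :=
  (∀ l ∈ L, l < z) ∧ (∀ r ∈ R, z < r) ∧ ∀ w, (∀ l ∈ L, l < w) → (∀ r ∈ R, w < r) → sle z w

theorem IsSimplest.unique {L R : Set Surreal.{u}} {z z' : Surreal.{u}}
    (h : IsSimplest L R z) (h' : IsSimplest L R z') : z = z' :=
  sle_antisymm (h.2.2 z' h'.1 h'.2.1) (h'.2.2 z h.1 h.2.1)

theorem exists_simplest (L R : Set Surreal.{u}) (hL : Small.{u} L) (hR : Small.{u} R)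
    (h : ∀ l ∈ L, ∀ r ∈ R, l < r) : ∃ z, IsSimplest L R z := by
  classical
  let C : Set Surreal.{u} := {w | (∀ l ∈ L, l < w) ∧ ∀ r ∈ R, w < r}
  have hC : C.Nonempty := exists_between L R hL hR h
  have wf : WellFounded (InvImage (fun a b : Ordinal.{u} => a < b) Surreal.len) :=
    InvImage.wf _ Ordinal.lt_wf
  set z := wf.min C hC with hz
  have hzC : z ∈ C := wf.min_mem C hC
  have hmin : ∀ w ∈ C, ¬ w.len < z.len := fun w hw hlt => wf.not_lt_min C hw hlt
  refine ⟨z, hzC.1, hzC.2, ?_⟩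
  intro w hw1 hw2
  by_contra hc
  have hne : z ≠ w := fun e => hc (e ▸ sle_refl z)
  by_cases h2 : sle w z
  · exact hmin w ⟨hw1, hw2⟩ (len_lt_of_sle h2 (Ne.symm hne))
  · rcases lt_or_gt_of_ne hne with h3 | h3
    · obtain ⟨t, ht1, ht2, ht3, ht4⟩ := meet h3 hc h2
      exact hmin t ⟨fun l hl => (hzC.1 l hl).trans ht3, fun r hr => ht4.trans (hw2 r hr)⟩
        (len_lt_of_sle ht1 (ne_of_gt ht3))
    · obtain ⟨t, ht1, ht2, ht3, ht4⟩ := meet h3 h2 hc
      exact hmin t ⟨fun l hl => (hw1 l hl).trans ht3, fun r hr => ht4.trans (hzC.2 r hr)⟩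
        (len_lt_of_sle ht2 (ne_of_lt ht4))

end Surreal

end R785.SI
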