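import Pool.Agent.R785.SI.Surreal1

/-!
# Surreal numbers: Conway addition, the ordered group structure
-/

universe u

namespace R785.SI

namespace Surreal

/-- the number with the empty sign expansion -/
noncomputable def zero : Surreal.{u} where
  sgn _ := 0
  len := 0
  spec β := by simp

/-- the left options of `x` in its canonical representation -/
def left (x : Surreal.{u}) : Set Surreal.{u} := {v | sle v x ∧ v < x}

/-- the right options of `x` in its canonical representation -/
def right (x : Surreal.{u}) : Set Surreal.{u} := {v | sle v x ∧ x < v}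

open Classical in
/-- `cut L R` is the simplest number strictly between `L` and `R` (`{L | R}`), if there is one. -/
noncomputable def cut (L R : Set Surreal.{u}) : Surreal.{u} :=
  if h : ∃ z, IsSimplest L R z then h.choose else zero

theorem cut_spec {L R : Set Surreal.{u}} (h : ∃ z, IsSimplest L R z) :
    IsSimplest L R (cut L R) := by
  rw [cut, dif_pos h]; exact h.choose_spec

theorem len_lt_of_left {v x : Surreal.{u}} (h : v ∈ left x) : v.len < x.len :=
  len_lt_of_sle h.1 (ne_of_lt h.2)

theorem len_lt_of_right {v x : Surreal.{u}} (h : v ∈ right x) : v.len < x.len :=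
  len_lt_of_sle h.1 (ne_of_gt h.2)

theorem small_left (x : Surreal.{u}) : Small.{u} (left x) := by
  have := small_sle x
  exact small_subset (s := {v | sle v x}) (fun v hv => hv.1)

theorem small_right (x : Surreal.{u}) : Small.{u} (right x) := by
  have := small_sle x
  exact small_subset (s := {v | sle v x}) (fun v hv => hv.1)

theorem simplest_self (x : Surreal.{u}) : IsSimplest (left x) (right x) x := by
  refine ⟨fun l hl => hl.2, fun r hr => hr.2, fun w hw1 hw2 => ?_⟩
  by_contra hc
  have hne : x ≠ w := fun e => hc (e ▸ sle_refl x)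
  by_cases h2 : sle w x
  · rcases lt_or_gt_of_ne hne with h3 | h3
    · exact lt_irrefl _ (hw2 w ⟨h2, h3⟩)
    · exact lt_irrefl _ (hw1 w ⟨h2, h3⟩)
  · rcases lt_or_gt_of_ne hne with h3 | h3
    · obtain ⟨t, ht1, ht2, ht3, ht4⟩ := meet h3 hc h2
      exact lt_asymm ht4 (hw2 t ⟨ht1, ht3⟩)
    · obtain ⟨t, ht1, ht2, ht3, ht4⟩ := meet h3 h2 hc
      exact lt_asymm ht3 (hw1 t ⟨ht2, ht4⟩)

/-- Conway addition: `x + y = {x^L + y, x + y^L | x^R + y, x + y^R}`. -/
noncomputable def add (x y : Surreal.{u}) : Surreal.{u} :=
  cut ({z | ∃ (v : Surreal.{u}) (_ : v ∈ left x), z = add v y} ∪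
        {z | ∃ (v : Surreal.{u}) (_ : v ∈ left y), z = add x v})
      ({z | ∃ (v : Surreal.{u}) (_ : v ∈ right x), z = add v y} ∪
        {z | ∃ (v : Surreal.{u}) (_ : v ∈ right y), z = add x v})
termination_by (x.len, y.len)
decreasing_by
  · exact Prod.Lex.left _ _ (len_lt_of_left ‹_›)
  · exact Prod.Lex.right _ (len_lt_of_left ‹_›)
  · exact Prod.Lex.left _ _ (len_lt_of_right ‹_›)
  · exact Prod.Lex.right _ (len_lt_of_right ‹_›)

/-- the left set in the definition of `x + y` -/
def LA (x y : Surreal.{u}) : Set Surreal.{u} :=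
  (fun v => add v y) '' left x ∪ (fun v => add x v) '' left y

/-- the right set in the definition of `x + y` -/
def RA (x y : Surreal.{u}) : Set Surreal.{u} :=
  (fun v => add v y) '' right x ∪ (fun v => add x v) '' right y

theorem add_def (x y : Surreal.{u}) : add x y = cut (LA x y) (RA x y) := by
  rw [add]
  congr 1
  · ext z; simp [LA, eq_comm]
  · ext z; simp [RA, eq_comm]

theorem small_LA (x y : Surreal.{u}) : Small.{u} (LA x y) := by
  have := small_left x
  have := small_left y
  have h1 : Small.{u} ((fun v => add v y) '' left x) := small_image _ _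
  have h2 : Small.{u} ((fun v => add x v) '' left y) := small_image _ _
  exact small_union _ _

theorem small_RA (x y : Surreal.{u}) : Small.{u} (RA x y) := by
  have := small_right x
  have := small_right y
  have h1 : Small.{u} ((fun v => add v y) '' right x) := small_image _ _
  have h2 : Small.{u} ((fun v => add x v) '' right y) := small_image _ _
  exact small_union _ _

/-- the condition that `x + y` is really simplest in its interval -/
def PP (x y : Surreal.{u}) : Prop := ∀ l ∈ LA x y, ∀ r ∈ RA x y, l < r

theorem PP.simplest {x y : Surreal.{u}} (h : PP x y) :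
    IsSimplest (LA x y) (RA x y) (add x y) := by
  rw [add_def]
  exact cut_spec (exists_simplest _ _ (small_LA x y) (small_RA x y) h)

theorem PP.ll {x y v : Surreal.{u}} (h : PP x y) (hv : v ∈ left x) : add v y < add x y :=
  h.simplest.1 _ (Or.inl ⟨v, hv, rfl⟩)

theorem PP.lr {x y v : Surreal.{u}} (h : PP x y) (hv : v ∈ left y) : add x v < add x y :=
  h.simplest.1 _ (Or.inr ⟨v, hv, rfl⟩)

theorem PP.rl {x y v : Surreal.{u}} (h : PP x y) (hv : v ∈ right x) : add x y < add v y :=
  h.simplest.2.1 _ (Or.inl ⟨v, hv, rfl⟩)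

theorem PP.rr {x y v : Surreal.{u}} (h : PP x y) (hv : v ∈ right y) : add x y < add x v :=
  h.simplest.2.1 _ (Or.inr ⟨v, hv, rfl⟩)

theorem lt_cases {a b : Surreal.{u}} (h : a < b) :
    a ∈ left b ∨ b ∈ right a ∨ ∃ z, z ∈ right a ∧ z ∈ left b := by
  by_cases h1 : sle a b
  · exact Or.inl ⟨h1, h⟩
  by_cases h2 : sle b a
  · exact Or.inr (Or.inl ⟨h2, h⟩)
  obtain ⟨z, z1, z2, z3, z4⟩ := meet h h1 h2
  exact Or.inr (Or.inr ⟨z, ⟨z1, z3⟩, ⟨z2, z4⟩⟩)

theorem mono_left {a b c : Surreal.{u}} (h : a < b) (ha : PP a c) (hb : PP b c) :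
    add a c < add b c := by
  rcases lt_cases h with h1 | h1 | ⟨z, h1, h2⟩
  · exact hb.ll h1
  · exact ha.rl h1
  · exact (ha.rl h1).trans (hb.ll h2)

theorem mono_right {a b c : Surreal.{u}} (h : a < b) (ha : PP c a) (hb : PP c b) :
    add c a < add c b := by
  rcases lt_cases h with h1 | h1 | ⟨z, h1, h2⟩
  · exact hb.lr h1
  · exact ha.rr h1
  · exact (ha.rr h1).trans (hb.lr h2)

theorem pp (x y : Surreal.{u}) : PP x y := by
  rintro l (⟨a, ha, rfl⟩ | ⟨a, ha, rfl⟩) r (⟨b, hb, rfl⟩ | ⟨b, hb, rfl⟩)
  · exact mono_left (ha.2.trans hb.2) (pp a y) (pp b y)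
  · exact ((pp a y).rr hb).trans ((pp x b).ll ha)
  · exact ((pp x a).rl hb).trans ((pp b y).lr ha)
  · exact mono_right (ha.2.trans hb.2) (pp x a) (pp x b)
termination_by (x.len, y.len)
decreasing_by
  · exact Prod.Lex.left _ _ (len_lt_of_left ‹_›)
  · exact Prod.Lex.left _ _ (len_lt_of_right ‹_›)
  · exact Prod.Lex.left _ _ (len_lt_of_left ‹_›)
  · exact Prod.Lex.right _ (len_lt_of_right ‹_›)
  · exact Prod.Lex.right _ (len_lt_of_left ‹_›)
  · exact Prod.Lex.left _ _ (len_lt_of_right ‹_›)
  · exact Prod.Lex.right _ (len_lt_of_left ‹_›)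
  · exact Prod.Lex.right _ (len_lt_of_right ‹_›)

theorem add_simplest' (x y : Surreal.{u}) : IsSimplest (LA x y) (RA x y) (add x y) :=
  (pp x y).simplest

theorem add_lt_left' {a b : Surreal.{u}} (h : a < b) (c : Surreal.{u}) : add a c < add b c :=
  mono_left h (pp a c) (pp b c)

theorem add_lt_right' {a b : Surreal.{u}} (h : a < b) (c : Surreal.{u}) : add c a < add c b :=
  mono_right h (pp c a) (pp c b)

theorem add_le_left' {a b : Surreal.{u}} (h : a ≤ b) (c : Surreal.{u}) : add a c ≤ add b c := by
  rcases h.lt_or_eq with h | h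
  · exact (add_lt_left' h c).le
  · rw [h]

theorem add_comm' (x y : Surreal.{u}) : add x y = add y x := by
  rw [add_def x y, add_def y x]
  have e1 : LA x y = LA y x := by
    unfold LA
    rw [Set.union_comm]
    congr 1
    · exact Set.image_congr (fun v hv => add_comm' x v)
    · exact Set.image_congr (fun v hv => add_comm' v y)
  have e2 : RA x y = RA y x := by
    unfold RA
    rw [Set.union_comm]
    congr 1
    · exact Set.image_congr (fun v hv => add_comm' x v)
    · exact Set.image_congr (fun v hv => add_comm' v y)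
  rw [e1, e2]
termination_by (x.len, y.len)
decreasing_by
  · exact Prod.Lex.right _ (len_lt_of_left hv)
  · exact Prod.Lex.left _ _ (len_lt_of_left hv)
  · exact Prod.Lex.right _ (len_lt_of_right hv)
  · exact Prod.Lex.left _ _ (len_lt_of_right hv)

theorem zero_sle (x : Surreal.{u}) : sle zero x := by
  intro β hβ
  exact absurd hβ (by simp [zero])

theorem eq_zero_of_sle {v : Surreal.{u}} (h : sle v zero) : v = zero :=
  sle_antisymm h (zero_sle v)

theorem left_zero : left (zero : Surreal.{u}) = ∅ := by
  ext v
  simp only [left, Set.mem_ofPred_eq, Set.mem_empty_iff_false, iff_false, not_and]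
  intro h h2
  rw [eq_zero_of_sle h] at h2
  exact lt_irrefl _ h2

theorem right_zero : right (zero : Surreal.{u}) = ∅ := by
  ext v
  simp only [right, Set.mem_ofPred_eq, Set.mem_empty_iff_false, iff_false, not_and]
  intro h h2
  rw [eq_zero_of_sle h] at h2
  exact lt_irrefl _ h2

theorem zero_add' (y : Surreal.{u}) : add zero y = y := by
  have e1 : LA zero y = left y := by
    unfold LA
    rw [left_zero, Set.image_empty, Set.empty_union]
    conv_rhs => rw [← Set.image_id (left y)]
    exact Set.image_congr (fun v hv => zero_add' v)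
  have e2 : RA zero y = right y := by
    unfold RA
    rw [right_zero, Set.image_empty, Set.empty_union]
    conv_rhs => rw [← Set.image_id (right y)]
    exact Set.image_congr (fun v hv => zero_add' v)
  have h := add_simplest' zero y
  rw [e1, e2] at h
  exact h.unique (simplest_self y)
termination_by y.len
decreasing_by
  · exact len_lt_of_left hv
  · exact len_lt_of_right hv

/-- uniformity of addition -/
theorem uniform {A B : Set Surreal.{u}} {x : Surreal.{u}} (hx : IsSimplest A B x)
    (z : Surreal.{u}) :
    IsSimplest ((fun a => add a z) '' A ∪ (fun v => add x v) '' left z)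
      ((fun b => add b z) '' B ∪ (fun v => add x v) '' right z) (add x z) := by
  refine ⟨?_, ?_, ?_⟩
  · rintro l (⟨a, ha, rfl⟩ | ⟨v, hv, rfl⟩)
    · exact add_lt_left' (hx.1 a ha) z
    · exact add_lt_right' hv.2 x
  · rintro l (⟨a, ha, rfl⟩ | ⟨v, hv, rfl⟩)
    · exact add_lt_left' (hx.2.1 a ha) z
    · exact add_lt_right' hv.2 x
  · intro w hw1 hw2
    refine (add_simplest' x z).2.2 w ?_ ?_
    · rintro l (⟨v, hv, rfl⟩ | ⟨v, hv, rfl⟩)
      · by_contra hc
        have hA : ∀ a ∈ A, a < v := by
          intro a ha
          by_contra hav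
          exact hc ((add_le_left' (not_lt.1 hav) z).trans_lt (hw1 _ (Or.inl ⟨a, ha, rfl⟩)))
        have hB : ∀ b ∈ B, v < b := fun b hb => hv.2.trans (hx.2.1 b hb)
        exact absurd (sle_antisymm hv.1 (hx.2.2 v hA hB)) (ne_of_lt hv.2)
      · exact hw1 _ (Or.inr ⟨v, hv, rfl⟩)
    · rintro l (⟨v, hv, rfl⟩ | ⟨v, hv, rfl⟩)
      · by_contra hc
        have hB : ∀ b ∈ B, v < b := by
          intro b hb
          by_contra hav
          exact hc ((hw2 _ (Or.inl ⟨b, hb, rfl⟩)).trans_le (add_le_left' (not_lt.1 hav) z))
        have hA : ∀ a ∈ A, a < v := fun a ha => (hx.1 a ha).trans hv.2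
        exact absurd (sle_antisymm hv.1 (hx.2.2 v hA hB)) (ne_of_gt hv.2)
      · exact hw2 _ (Or.inr ⟨v, hv, rfl⟩)

theorem add_assoc' (x y z : Surreal.{u}) : add (add x y) z = add x (add y z) := by
  have h1 := uniform (add_simplest' x y) z
  have h2 := uniform (add_simplest' y z) x
  rw [add_comm' (add y z) x] at h2
  have e1 : (fun a => add a z) '' LA x y ∪ (fun v => add (add x y) v) '' left z =
      (fun a => add a x) '' LA y z ∪ (fun v => add (add y z) v) '' left x := by
    unfold LA
    rw [Set.image_union, Set.image_union, Set.image_image, Set.image_image, Set.image_image,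
      Set.image_image, Set.union_comm _ ((fun v => add (add y z) v) '' left x),
      ← Set.union_assoc]
    congr 1
    · congr 1
      · refine Set.image_congr (fun v hv => ?_)
        rw [add_assoc' v y z, add_comm']
      · refine Set.image_congr (fun v hv => ?_)
        rw [add_assoc' x v z, add_comm']
    · refine Set.image_congr (fun v hv => ?_)
      rw [add_assoc' x y v, add_comm']
  have e2 : (fun a => add a z) '' RA x y ∪ (fun v => add (add x y) v) '' right z =
      (fun a => add a x) '' RA y z ∪ (fun v => add (add y z) v) '' right x := by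
    unfold RA
    rw [Set.image_union, Set.image_union, Set.image_image, Set.image_image, Set.image_image,
      Set.image_image, Set.union_comm _ ((fun v => add (add y z) v) '' right x),
      ← Set.union_assoc]
    congr 1
    · congr 1
      · refine Set.image_congr (fun v hv => ?_)
        rw [add_assoc' v y z, add_comm']
      · refine Set.image_congr (fun v hv => ?_)
        rw [add_assoc' x v z, add_comm']
    · refine Set.image_congr (fun v hv => ?_)
      rw [add_assoc' x y v, add_comm']
  rw [e1, e2] at h1
  exact h1.unique h2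
termination_by (x.len, y.len, z.len)
decreasing_by
  · exact Prod.Lex.left _ _ (len_lt_of_left hv)
  · exact Prod.Lex.right _ (Prod.Lex.left _ _ (len_lt_of_left hv))
  · exact Prod.Lex.right _ (Prod.Lex.right _ (len_lt_of_left hv))
  · exact Prod.Lex.left _ _ (len_lt_of_right hv)
  · exact Prod.Lex.right _ (Prod.Lex.left _ _ (len_lt_of_right hv))
  · exact Prod.Lex.right _ (Prod.Lex.right _ (len_lt_of_right hv))

/-- the negative: all signs are changed -/
noncomputable def neg (x : Surreal.{u}) : Surreal.{u} where
  sgn β := - x.sgn β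
  len := x.len
  spec β := by
    rw [← x.spec β]
    generalize x.sgn β = s
    revert s; decide

theorem neg_sgn (x : Surreal.{u}) (β : Ordinal.{u}) : (neg x).sgn β = - x.sgn β := rfl

theorem neg_neg' (x : Surreal.{u}) : neg (neg x) = x := by
  apply ext'
  intro β
  rw [neg_sgn, neg_sgn]
  generalize x.sgn β = s
  revert s; decide

theorem neg_sle {x y : Surreal.{u}} (h : sle x y) : sle (neg x) (neg y) := by
  intro β hβ
  rw [neg_sgn, neg_sgn, h β hβ]

theorem neg_lt {x y : Surreal.{u}} (h : x < y) : neg y < neg x := by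
  obtain ⟨β, h1, h2⟩ := lt_def.1 h
  refine lt_def.2 ⟨β, fun γ hγ => by rw [neg_sgn, neg_sgn, h1 γ hγ], ?_⟩
  rw [neg_sgn, neg_sgn]
  revert h2
  generalize x.sgn β = s
  generalize y.sgn β = t
  revert s t; decide

theorem neg_left {x v : Surreal.{u}} (h : v ∈ left (neg x)) : neg v ∈ right x := by
  have h1 := neg_sle h.1
  have h2 := neg_lt h.2
  rw [neg_neg'] at h1 h2
  exact ⟨h1, h2⟩

theorem neg_right {x v : Surreal.{u}} (h : v ∈ right (neg x)) : neg v ∈ left x := by
  have h1 := neg_sle h.1
  have h2 := neg_lt h.2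
  rw [neg_neg'] at h1 h2
  exact ⟨h1, h2⟩

theorem add_neg' (x : Surreal.{u}) : add x (neg x) = zero := by
  apply eq_zero_of_sle
  refine (add_simplest' x (neg x)).2.2 zero ?_ ?_
  · rintro l (⟨v, hv, rfl⟩ | ⟨v, hv, rfl⟩)
    · have := add_lt_right' (neg_lt hv.2) v
      rwa [add_neg' v] at this
    · have h := neg_left hv
      have := add_lt_left' h.2 v
      have e := add_neg' (neg v)
      rw [neg_neg'] at e
      rwa [e] at this
  · rintro l (⟨v, hv, rfl⟩ | ⟨v, hv, rfl⟩)
    · have := add_lt_right' (neg_lt hv.2) v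
      rwa [add_neg' v] at this
    · have h := neg_right hv
      have := add_lt_left' h.2 v
      have e := add_neg' (neg v)
      rw [neg_neg'] at e
      rwa [e] at this
termination_by x.len
decreasing_by
  · exact len_lt_of_left hv
  · exact len_lt_of_right (neg_left hv)
  · exact len_lt_of_right hv
  · exact len_lt_of_left (neg_right hv)

noncomputable instance : Zero Surreal.{u} := ⟨zero⟩

noncomputable instance : Add Surreal.{u} := ⟨add⟩

noncomputable instance : Neg Surreal.{u} := ⟨neg⟩

noncomputable instance : AddCommGroup Surreal.{u} where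
  add_assoc := add_assoc'
  zero_add := zero_add'
  add_zero x := by
    change add x zero = x
    rw [add_comm', zero_add']
  add_comm := add_comm'
  neg_add_cancel x := by
    change add (neg x) x = zero
    rw [add_comm', add_neg']
  nsmul := nsmulRec
  zsmul := zsmulRec

instance : IsOrderedAddMonoid Surreal.{u} where
  add_le_add_left _ _ h c := add_le_left' h c

theorem add_eq (x y : Surreal.{u}) : x + y = add x y := rfl

theorem neg_eq (x : Surreal.{u}) : -x = neg x := rfl

theorem zero_eq : (0 : Surreal.{u}) = zero := rfl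

/-- Conway's inductive formula for the sum: `x + y` is the simplest number strictly between
`{x^L + y, x + y^L}` and `{x^R + y, x + y^R}`. -/
theorem add_isSimplest (x y : Surreal.{u}) :
    IsSimplest ((fun v => v + y) '' left x ∪ (fun v => x + v) '' left y)
      ((fun v => v + y) '' right x ∪ (fun v => x + v) '' right y) (x + y) :=
  add_simplest' x y

/-- The number `1`: its sign expansion is a single `+`. -/
noncomputable instance : One Surreal.{u} where
  one := {
    sgn := fun β => if β = 0 then 1 else 0
    len := 1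
    spec := fun β => by
      by_cases h : β = 0
      · simp [h]
      · simp [h] }

theorem one_sgn (β : Ordinal.{u}) : (1 : Surreal.{u}).sgn β = if β = 0 then 1 else 0 := rfl

theorem one_len : (1 : Surreal.{u}).len = 1 := rfl

theorem zero_lt_one' : (0 : Surreal.{u}) < 1 := by
  refine lt_def.2 ⟨0, fun γ hγ => absurd hγ (by simp), ?_⟩
  rw [one_sgn, if_pos rfl]
  change (0 : SignType) < 1
  decide

theorem one_sle {w : Surreal.{u}} (h : 0 < w) : sle 1 w := by
  obtain ⟨β, h1, h2⟩ := lt_def.1 h
  have hβ : β = 0 := by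
    by_contra hc
    have h3 : (0 : Surreal.{u}).sgn 0 = w.sgn 0 := h1 0 (pos_iff_ne_zero.2 hc)
    have h4 : w.sgn 0 = 0 := h3.symm
    have h5 : w.sgn β = 0 := sgn_eq_zero.2 ((sgn_eq_zero.1 h4).trans zero_le)
    rw [h5] at h2
    exact lt_irrefl _ (show (0 : SignType) < 0 from h2)
  subst hβ
  intro γ hγ
  rw [one_len, Order.lt_one_iff] at hγ
  subst hγ
  rw [one_sgn, if_pos rfl]
  have h2' : (0 : SignType) < w.sgn 0 := h2
  revert h2'
  generalize w.sgn 0 = s
  revert s; decide

end Surreal

end R785.SI
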