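import Pool.Agent.R785.SI.Surreal2
import Pool.Agent.R785.SI.PartA
import Pool.Agent.R785.SI.PartB
import Pool.Agent.R785.SI.PartC

/-!
# The surreal numbers satisfy the abstract interface
-/

universe u

namespace R785.SI

namespace Surreal

/-- The surreal numbers have all the properties collected in `SurrealLike`. -/
noncomputable def surrealLike : SurrealLike Surreal.{u} where
  sle := sle
  len := len
  refl := sle_refl
  trans := sle_trans
  antisymm := sle_antisymm
  len_lt := len_lt_of_sle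
  chain := sle_chain
  meet := meet
  between_left := between_left
  between_right := between_right
  small := small_sle
  cut L R hL hR h := exists_simplest L R hL hR h
  add_simplest x y w h1 h2 := by
    refine (add_isSimplest x y).2.2 w ?_ ?_
    · rintro l (⟨v, hv, rfl⟩ | ⟨v, hv, rfl⟩)
      · exact (h1 v hv.1).1 hv.2
      · exact (h2 v hv.1).1 hv.2
    · rintro l (⟨v, hv, rfl⟩ | ⟨v, hv, rfl⟩)
      · exact (h1 v hv.1).2 hv.2
      · exact (h2 v hv.1).2 hv.2
  neg := neg_sle

/-- An omnific integer: `x = {x - 1 | x + 1}`, that is, `x` is the simplest number strictly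
between `x - 1` and `x + 1`. -/
def IsOmnific (x : Surreal.{u}) : Prop := IsSimplest {x - 1} {x + 1} x

theorem main (G : AddSubgroup Surreal.{u}) (hG : ∀ x ∈ G, ∀ v, sle v x → v ∈ G)
    (hd : ∃ ε ∈ G, 0 < ε ∧ ∀ g ∈ G, 0 < g → ε ≤ g) :
    ∃ H : AddSubgroup Surreal.{u}, (∀ x ∈ H, ∀ v, sle v x → v ∈ H) ∧
      (∀ x ∈ H, IsOmnific x) ∧ Nonempty (G ≃+o H) := by
  obtain ⟨ε, h1, h2, h3⟩ := hd
  obtain ⟨H, hH1, hH2, hH3⟩ := partC surrealLike.{u} (partA surrealLike.{u})
    (partB surrealLike.{u}) 1 zero_lt_one' (fun w hw => one_sle hw) G hG ⟨ε, h1, h2, h3⟩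
  refine ⟨H, hH1, fun x hx => ⟨?_, ?_, ?_⟩, hH3⟩
  · rintro l rfl
    exact sub_lt_self x zero_lt_one'
  · rintro r rfl
    exact lt_add_of_pos_right x zero_lt_one'
  · intro w hw1 hw2
    exact hH2 x hx w (hw1 _ rfl) (hw2 _ rfl)

end Surreal

end R785.SI
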